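import Pool.Agent.H20R3.Yor.Defs

/-!
# A Baire category argument and estimates for the measure of unions of cylinders
-/

namespace Pool.Agent.H20R3.Yor

open Set MeasureTheory Cardinal Filter
open scoped ENNReal Cardinal

/-- a set all of whose pieces in the cylinders inside an open set `U` are null is null in `U` -/
theorem exists_Cyl_pos {K U : Set Cantor} (hU : IsOpen U) (h : coin (K ∩ U) ≠ 0) :
    ∃ s : List Bool, Cyl s ⊆ U ∧ coin (K ∩ Cyl s) ≠ 0 := by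
  by_contra hcon
  push Not at hcon
  apply h
  have h1 : K ∩ U ⊆ ⋃ s ∈ {s : List Bool | Cyl s ⊆ U}, (K ∩ Cyl s) := by
    rintro x ⟨hx, hxU⟩
    obtain ⟨L, hL⟩ := exists_Cyl hU hxU
    exact mem_biUnion (x := seg x L) hL ⟨hx, self_mem x L⟩
  refine measure_mono_null h1 ((measure_biUnion_null_iff (to_countable _)).2 ?_)
  intro s hs
  exact hcon s hs

/-- Baire category argument. -/
theorem baire {K : Set Cantor} (hK : IsClosed K) (hpos : coin K ≠ 0) {G : ℕ → Set Cantor}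
    (hG : ∀ n, IsOpen (G n)) (hd : ∀ x ∈ K, ¬ {n | x ∈ G n}.Infinite) :
    ∃ u : List Bool, coin (K ∩ Cyl u) ≠ 0 ∧ ∃ n0, ∀ n ≥ n0, coin (K ∩ Cyl u ∩ G n) = 0 := by
  by_contra hcon
  push Not at hcon
  have step : ∀ (k : ℕ) (u : {u : List Bool // coin (K ∩ Cyl u) ≠ 0}),
      ∃ (u' : {u : List Bool // coin (K ∩ Cyl u) ≠ 0}) (n : ℕ), k ≤ n ∧
        Cyl u'.1 ⊆ Cyl u.1 ∩ G n := by
    intro k u
    obtain ⟨n, hn, h1⟩ := hcon u.1 u.2 k
    rw [inter_assoc] at h1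
    obtain ⟨s, hs, hs'⟩ := exists_Cyl_pos ((isClopen_Cyl u.1).isOpen.inter (hG n)) h1
    exact ⟨⟨s, hs'⟩, n, hn, hs⟩
  choose nx nn hnn hnx using step
  have h0 : coin (K ∩ Cyl []) ≠ 0 := by
    have : Cyl [] = Set.univ := by
      ext x; simp [Cyl, IsInit]
    rw [this, inter_univ]; exact hpos
  let s : ℕ → {u : List Bool // coin (K ∩ Cyl u) ≠ 0} := fun k =>
    Nat.rec ⟨[], h0⟩ (fun k u => nx k u) k
  have hs : ∀ k, s (k + 1) = nx k (s k) := fun k => rfl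
  have hanti : ∀ k, K ∩ Cyl (s (k + 1)).1 ⊆ K ∩ Cyl (s k).1 := by
    intro k
    rw [hs]
    exact inter_subset_inter_right _ ((hnx k (s k)).trans inter_subset_left)
  have hne : (⋂ k, K ∩ Cyl (s k).1).Nonempty := by
    apply IsCompact.nonempty_iInter_of_sequence_nonempty_isCompact_isClosed _ hanti
    · intro k
      exact nonempty_of_measure_ne_zero (s k).2
    · exact (hK.inter (isClopen_Cyl _).isClosed).isCompact
    · intro k
      exact hK.inter (isClopen_Cyl _).isClosed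
  obtain ⟨x, hx⟩ := hne
  rw [mem_iInter] at hx
  refine hd x (hx 0).1 ?_
  rw [Set.infinite_iff_exists_gt]
  intro a
  have h1 : x ∈ Cyl (nx (a + 1) (s (a + 1))).1 := by
    rw [← hs]; exact (hx (a + 1 + 1)).2
  exact ⟨nn (a + 1) (s (a + 1)), (hnx _ _ h1).2, Nat.lt_of_succ_le (hnn _ _)⟩

/-- the union of the cylinders of the strings in `T n`, `n ≥ N` -/
def V (T : ℕ → Finset (List Bool)) (N : ℕ) : Set Cantor := ⋃ n ∈ Ici N, ⋃ s ∈ T n, Cyl s

theorem mem_V {T : ℕ → Finset (List Bool)} {N : ℕ} {x : Cantor} :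
    x ∈ V T N ↔ ∃ n ≥ N, ∃ s ∈ T n, x ∈ Cyl s := by
  simp [V]

theorem isOpen_V (T : ℕ → Finset (List Bool)) (N : ℕ) : IsOpen (V T N) :=
  isOpen_biUnion fun _ _ => isOpen_biUnion fun _ _ => (isClopen_Cyl _).isOpen

/-- the points with initial segments in infinitely many of the sets `T n` -/
def LS (T : ℕ → Finset (List Bool)) : Set Cantor := {x | {n | ∃ s ∈ T n, IsInit s x}.Infinite}

theorem LS_subset_V (T : ℕ → Finset (List Bool)) (N : ℕ) : LS T ⊆ V T N := by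
  intro x hx
  obtain ⟨n, hn, hN⟩ := hx.exists_gt N
  obtain ⟨s, hs, hsx⟩ := hn
  exact mem_V.2 ⟨n, hN.le, s, hs, hsx⟩

/-- the weight of a finite set of strings -/
noncomputable def wt (F : Finset (List Bool)) : ℝ≥0∞ := ∑ s ∈ F, (2⁻¹ : ℝ≥0∞) ^ s.length

theorem coin_biUnion_le (F : Finset (List Bool)) : coin (⋃ s ∈ F, Cyl s) ≤ wt F := by
  refine (measure_biUnion_finset_le F _).trans ?_
  exact Finset.sum_le_sum fun s _ => (coin_Cyl s).le

theorem coin_LS_eq_zero {T : ℕ → Finset (List Bool)} (h : ∑' n, wt (T n) ≠ ∞) :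
    coin (LS T) = 0 := by
  have h1 : LS T = {x | ∃ᶠ n in atTop, x ∈ ⋃ s ∈ T n, Cyl s} := by
    ext x
    rw [mem_ofPred_eq, Nat.frequently_atTop_iff_infinite]
    simp [LS, Cyl]
  rw [h1]
  apply measure_setOfPred_frequently_eq_zero
  refine ne_top_of_le_ne_top h (ENNReal.tsum_le_tsum fun n => ?_)
  exact coin_biUnion_le (T n)

theorem tail_bound {T : ℕ → Finset (List Bool)} {N c : ℕ} (hT : ∀ n, (T n).card ≤ 2 ^ n)
    (h : ∀ n ≥ N, ∀ s ∈ T n, 2 * n + 1 + c ≤ s.length) :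
    coin (V T N) ≤ (2⁻¹ : ℝ≥0∞) ^ (N + c) := by
  have h1 : V T N = ⋃ n : ℕ, ⋃ s ∈ T (n + N), Cyl s := by
    ext x
    rw [mem_V]
    simp only [mem_iUnion, exists_prop]
    constructor
    · rintro ⟨n, hn, s, hs, hx⟩
      exact ⟨n - N, s, by rwa [Nat.sub_add_cancel hn], hx⟩
    · rintro ⟨n, s, hs, hx⟩
      exact ⟨n + N, Nat.le_add_left _ _, s, hs, hx⟩
  rw [h1]
  refine (measure_iUnion_le _).trans ?_
  have h2 : ∀ n : ℕ, coin (⋃ s ∈ T (n + N), Cyl s) ≤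
      (2⁻¹ : ℝ≥0∞) ^ (N + c) * (2⁻¹ : ℝ≥0∞) ^ (n + 1) := by
    intro n
    refine (coin_biUnion_le _).trans ?_
    unfold wt
    have h3 : ∀ s ∈ T (n + N), (2⁻¹ : ℝ≥0∞) ^ s.length ≤ (2⁻¹ : ℝ≥0∞) ^ (2 * (n + N) + 1 + c) := by
      intro s hs
      exact pow_le_pow_right_of_le_one' (by simp) (h _ (Nat.le_add_left _ _) s hs)
    refine (Finset.sum_le_card_nsmul _ _ _ h3).trans ?_
    rw [nsmul_eq_mul]
    have h4 : (((T (n + N)).card : ℕ) : ℝ≥0∞) ≤ 2 ^ (n + N) := by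
      have := hT (n + N)
      exact_mod_cast this
    refine (mul_le_mul_left h4 _).trans ?_
    have h5 : (2⁻¹ : ℝ≥0∞) ^ (2 * (n + N) + 1 + c) =
        (2⁻¹ : ℝ≥0∞) ^ (n + N) * (2⁻¹ : ℝ≥0∞) ^ (n + N + 1 + c) := by
      rw [← pow_add]; congr 1; ring
    rw [h5, ← mul_assoc, ← mul_pow, ENNReal.mul_inv_cancel (by simp) (by simp), one_pow, one_mul,
      ← pow_add]
    apply le_of_eq
    congr 1
    ring
  refine (ENNReal.tsum_le_tsum h2).trans ?_
  rw [ENNReal.tsum_mul_left]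
  have h6 : ∑' n : ℕ, (2⁻¹ : ℝ≥0∞) ^ (n + 1) = 1 := by
    rw [ENNReal.tsum_geometric_add_one, ENNReal.one_sub_inv_two,
      ENNReal.mul_inv_cancel (by simp) (by simp)]
  rw [h6, mul_one]

end Pool.Agent.H20R3.Yor
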