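import Pool.Agent.H20R3.Yor.NullCode

/-!
# Localization is below the null ideal (Bartoszynski)
-/

namespace Pool.Agent.H20R3.Yor

open Set MeasureTheory Cardinal Filter
open scoped ENNReal Cardinal

/-- the basic events -/
def G (n i : ℕ) : Set Cantor := {y | ∀ l < n, y (Nat.pair i l) = true}

theorem isOpen_G (n i : ℕ) : IsOpen (G n i) := by
  have h : G n i = ⋂ l ∈ Finset.range n, (fun y : Cantor => y (Nat.pair i l)) ⁻¹' {true} := by
    ext y; simp [G]
  rw [h]
  exact isOpen_biInter_finset fun l _ =>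
    (isOpen_discrete _).preimage (continuous_apply _)

theorem coin_first (n : ℕ) : coin {w : Cantor | ∀ l < n, w l = true} = (2⁻¹ : ℝ≥0∞) ^ n := by
  have h : {w : Cantor | ∀ l < n, w l = true} = Cyl (seg (fun _ => true) n) := by
    ext w
    rw [mem_Cyl_seg]
    exact forall₂_congr fun _ _ => eq_comm
  rw [h, coin_Cyl, length_seg]

theorem coin_indep (S : Finset ℕ) (B : Set Cantor) (hB : MeasurableSet B) :
    coin {y | ∀ i ∈ S, (fun l => y (Nat.pair i l)) ∈ B} = coin B ^ S.card := by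
  set ν : Measure Bool := (PMF.uniformOfFintype Bool).toMeasure with hν
  have h1 : coin = (Measure.infinitePi fun _ : ℕ × ℕ => ν).map
      (MeasurableEquiv.piCongrLeft (fun _ : ℕ => Bool) Nat.pairEquiv) := by
    rw [Measure.infinitePi_map_piCongrLeft (fun _ : ℕ => ν) Nat.pairEquiv]
    rfl
  have h2 : (Measure.infinitePi fun _ : ℕ × ℕ => ν).map (MeasurableEquiv.curry ℕ ℕ Bool) =
      Measure.infinitePi fun _ : ℕ => coin := by
    rw [Measure.infinitePi_map_curry (fun _ _ => ν)]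
    rfl
  have h3 : {y : Cantor | ∀ i ∈ S, (fun l => y (Nat.pair i l)) ∈ B} =
      (MeasurableEquiv.piCongrLeft (fun _ : ℕ => Bool) Nat.pairEquiv).symm ⁻¹'
        (MeasurableEquiv.curry ℕ ℕ Bool ⁻¹' (Set.pi (S : Set ℕ) fun _ => B)) := by
    ext y
    simp only [mem_ofPred_eq, mem_preimage, Set.mem_pi, Finset.mem_coe]
    rfl
  have hmeas : MeasurableSet (Set.pi (S : Set ℕ) fun _ => B : Set (ℕ → Cantor)) :=
    MeasurableSet.pi (Finset.countable_toSet S) fun _ _ => hB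
  rw [h3, h1, MeasurableEquiv.map_apply, ← preimage_comp]
  have h4 : (⇑(MeasurableEquiv.piCongrLeft (fun _ : ℕ => Bool) Nat.pairEquiv).symm ∘
      ⇑(MeasurableEquiv.piCongrLeft (fun _ : ℕ => Bool) Nat.pairEquiv)) = id := by
    funext z; simp
  rw [h4, preimage_id, ← MeasurableEquiv.map_apply, h2, Measure.infinitePi_pi _ fun _ _ => hB]
  rw [Finset.prod_const]
  congr 2

theorem coin_G (n i : ℕ) : coin (G n i) = (2⁻¹ : ℝ≥0∞) ^ n := by
  have hB : MeasurableSet {w : Cantor | ∀ l < n, w l = true} := by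
    have h : {w : Cantor | ∀ l < n, w l = true} = Cyl (seg (fun _ => true) n) := by
      ext w
      rw [mem_Cyl_seg]
      exact forall₂_congr fun _ _ => eq_comm
    rw [h]; exact measurable_Cyl _
  have h1 := coin_indep {i} _ hB
  rw [Finset.card_singleton, pow_one, coin_first] at h1
  rw [← h1]
  congr 1
  ext y
  simp [G]

theorem coin_compl_G (n : ℕ) (S : Finset ℕ) :
    coin {y | ∀ i ∈ S, y ∉ G n i} = (1 - (2⁻¹ : ℝ≥0∞) ^ n) ^ S.card := by
  have h : {w : Cantor | ∀ l < n, w l = true} = Cyl (seg (fun _ => true) n) := by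
    ext w
    rw [mem_Cyl_seg]
    exact forall₂_congr fun _ _ => eq_comm
  have hB : MeasurableSet {w : Cantor | ∀ l < n, w l = true} := by
    rw [h]; exact measurable_Cyl _
  have h1 := coin_indep S _ hB.compl
  rw [prob_compl_eq_one_sub hB, coin_first] at h1
  rw [← h1]
  congr 1

theorem pow_le_half (n : ℕ) : (1 - (2⁻¹ : ℝ≥0∞) ^ n) ^ (2 ^ n) ≤ 2⁻¹ := by
  have h1 : (1 - (2⁻¹ : ℝ≥0∞) ^ n) = ENNReal.ofReal (1 - 1 / ((2 ^ n : ℕ) : ℝ)) := by
    rw [ENNReal.ofReal_sub _ (by positivity), ENNReal.ofReal_one]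
    congr 1
    rw [one_div, ENNReal.ofReal_inv_of_pos (by positivity), ENNReal.ofReal_natCast]
    push_cast
    rw [ENNReal.inv_pow]
  have h2 : (0 : ℝ) ≤ 1 - 1 / ((2 ^ n : ℕ) : ℝ) := by
    have : (1 : ℝ) ≤ ((2 ^ n : ℕ) : ℝ) := by exact_mod_cast Nat.one_le_two_pow
    have h3 : 1 / ((2 ^ n : ℕ) : ℝ) ≤ 1 := by
      rw [div_le_one (by positivity)]; exact this
    linarith
  rw [h1, ← ENNReal.ofReal_pow h2]
  have h3 : (1 - 1 / ((2 ^ n : ℕ) : ℝ)) ^ (2 ^ n) ≤ Real.exp (-1) := by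
    apply Real.one_sub_div_pow_le_exp_neg
    exact_mod_cast Nat.one_le_two_pow
  have h4 : Real.exp (-1) ≤ 2⁻¹ := by
    rw [Real.exp_neg]
    apply inv_anti₀ (by norm_num)
    have := Real.add_one_le_exp (1 : ℝ)
    linarith
  refine (ENNReal.ofReal_le_ofReal (h3.trans h4)).trans ?_
  rw [ENNReal.ofReal_inv_of_pos (by norm_num)]
  simp

/-- a set of measure more than `2 ^ (-n)` is almost disjoint from few of the sets `G n i` -/
theorem few {K : Set Cantor} {n : ℕ} (hK : (2⁻¹ : ℝ≥0∞) ^ n < coin K) :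
    ∃ F : Finset ℕ, (∀ i, coin (K ∩ G n i) = 0 → i ∈ F) ∧ F.card ≤ n * 2 ^ n := by
  classical
  have key : ∀ S : Finset ℕ, (∀ i ∈ S, coin (K ∩ G n i) = 0) → S.card ≠ n * 2 ^ n := by
    intro S hS hc
    have h1 : K ⊆ (⋃ i ∈ S, (K ∩ G n i)) ∪ {y | ∀ i ∈ S, y ∉ G n i} := by
      intro y hy
      by_cases h : ∀ i ∈ S, y ∉ G n i
      · exact Or.inr h
      · push Not at h
        obtain ⟨i, hi, hiy⟩ := h
        exact Or.inl (mem_biUnion (x := i) hi ⟨hy, hiy⟩)
    have h2 : coin (⋃ i ∈ S, (K ∩ G n i)) = 0 :=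
      (measure_biUnion_null_iff (Finset.countable_toSet S)).2 fun i hi => hS i hi
    have h3 := (measure_mono (μ := coin) h1).trans (measure_union_le _ _)
    rw [h2, zero_add, coin_compl_G, hc, mul_comm, pow_mul] at h3
    have h4 : ((1 - (2⁻¹ : ℝ≥0∞) ^ n) ^ (2 ^ n)) ^ n ≤ (2⁻¹ : ℝ≥0∞) ^ n :=
      pow_le_pow_left₀ bot_le (pow_le_half n) n
    exact absurd (hK.trans_le (h3.trans h4)) (lt_irrefl _)
  have hfin : {i | coin (K ∩ G n i) = 0}.Finite := by
    by_contra hinf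
    obtain ⟨S, hS, hc⟩ := Set.Infinite.exists_subset_card_eq hinf (n * 2 ^ n)
    exact key S (fun i hi => hS hi) hc
  refine ⟨hfin.toFinset, fun i hi => by simpa using hi, ?_⟩
  by_contra hc
  obtain ⟨S, hS, hSc⟩ := Finset.exists_subset_card_eq (not_le.1 hc).le
  exact key S (fun i hi => by simpa using hS hi) hSc

/-- the null set coding `x` -/
def nullG (x : ℕ → ℕ) : Set Cantor := {y | {n | y ∈ G n (x n)}.Infinite}

theorem nullG_null (x : ℕ → ℕ) : coin (nullG x) = 0 := by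
  have h1 : nullG x = {y | ∃ᶠ n in atTop, y ∈ G n (x n)} := by
    ext y
    rw [mem_ofPred_eq, Nat.frequently_atTop_iff_infinite]
    rfl
  rw [h1]
  apply measure_setOfPred_frequently_eq_zero
  have h2 : ∀ n, coin {y | y ∈ G n (x n)} = (2⁻¹ : ℝ≥0∞) ^ n := fun n => coin_G n (x n)
  simp_rw [h2]
  rw [ENNReal.tsum_geometric, ENNReal.one_sub_inv_two, inv_inv]
  simp

/-- Bartoszynski: null sets localize functions -/
theorem bart {Z : Set Cantor} (hZ : coin Z = 0) :
    ∃ φ : ℕ → Finset ℕ, (∀ n, (φ n).card ≤ 2 ^ (3 * n)) ∧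
      ∀ x : ℕ → ℕ, nullG x ⊆ Z → ∃ n1, ∀ n ≥ n1, x n ∈ φ n := by
  classical
  have hlt : coin Z < 1 := by rw [hZ]; simp
  obtain ⟨U, hZU, hU, hUm⟩ := Z.exists_isOpen_lt_of_lt _ hlt
  set K := Uᶜ with hK
  have hKc : IsClosed K := hU.isClosed_compl
  have hKpos : coin K ≠ 0 := by
    intro h0
    have h1 : coin Set.univ ≤ coin K + coin U := by
      rw [← compl_union_self U]
      exact measure_union_le _ _
    rw [h0, zero_add, measure_univ] at h1
    exact absurd hUm (not_lt.2 h1)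
  obtain ⟨u, hu⟩ := exists_surjective_nat (List Bool)
  let A : ℕ → ℕ → Finset ℕ := fun j n =>
    if h : ∃ F : Finset ℕ, (∀ i, coin (K ∩ Cyl (u j) ∩ G n i) = 0 → i ∈ F) ∧ F.card ≤ n * 2 ^ n
      then h.choose else ∅
  have hAcard : ∀ j n, (A j n).card ≤ n * 2 ^ n := by
    intro j n
    simp only [A]
    split_ifs with h
    · exact h.choose_spec.2
    · simp
  refine ⟨fun n => (Finset.range n).biUnion fun j => A j n, fun n => ?_, fun x hx => ?_⟩
  · refine (Finset.card_biUnion_le.trans (Finset.sum_le_card_nsmul _ _ _ fun j _ =>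
      hAcard j n)).trans ?_
    rw [Finset.card_range, smul_eq_mul]
    have h1 : n ≤ 2 ^ n := Nat.lt_two_pow_self.le
    calc n * (n * 2 ^ n) ≤ 2 ^ n * (2 ^ n * 2 ^ n) := by gcongr
      _ = 2 ^ (3 * n) := by rw [← pow_add, ← pow_add]; congr 1; ring
  · obtain ⟨v, hv, n0, hn0⟩ := baire hKc hKpos (fun n => isOpen_G n (x n)) (by
      intro y hy hinf
      exact hy (hZU (hx hinf)))
    obtain ⟨j, rfl⟩ := hu v
    have h5 : Tendsto (fun N : ℕ => (2⁻¹ : ℝ≥0∞) ^ N) atTop (nhds 0) :=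
      ENNReal.tendsto_pow_atTop_nhds_zero_of_lt_one (by simp)
    obtain ⟨n1, hn1⟩ := eventually_atTop.1 (h5.eventually (gt_mem_nhds (pos_iff_ne_zero.2 hv)))
    refine ⟨max (j + 1) (max n0 n1), fun n hn => ?_⟩
    have hnj : j < n := (le_max_left _ _).trans hn
    have hnn0 : n0 ≤ n := (le_max_left _ _).trans ((le_max_right _ _).trans hn)
    have hnn1 : n1 ≤ n := (le_max_right _ _).trans ((le_max_right _ _).trans hn)
    rw [Finset.mem_biUnion]
    refine ⟨j, Finset.mem_range.2 hnj, ?_⟩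
    have h6 := few (hn1 n hnn1)
    simp only [A]
    rw [dif_pos h6]
    exact h6.choose_spec.1 _ (hn0 n hnn0)

/-- the rate index function -/
def slowG (g : ℕ → ℕ) (n : ℕ) : ℕ := Nat.findGreatest (fun k => ∀ k' ≤ k, g k' ≤ n) n

theorem slowG_tendsto (g : ℕ → ℕ) (k : ℕ) : ∃ N, ∀ n ≥ N, k ≤ slowG g n := by
  refine ⟨max k (up g k), fun n hn => Nat.le_findGreatest ((le_max_left _ _).trans hn) ?_⟩
  intro k' hk'
  exact (le_up g k').trans ((up_mono g hk').trans ((le_max_right _ _).trans hn))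

theorem slowG_spec {g : ℕ → ℕ} {n : ℕ} (h : slowG g n ≠ 0) : g (slowG g n) ≤ n :=
  Nat.findGreatest_of_ne_zero (P := fun k => ∀ k' ≤ k, g k' ≤ n) rfl h _ le_rfl

open Classical in
/-- decoding a pair of a finite set of strings and a number -/
noncomputable def unp (f : ℕ → ℕ) (n r c : ℕ) : Finset (List Bool) :=
  match (Encodable.decode c : Option (Finset (List Bool) × ℕ)) with
  | some p => if p.1.card ≤ 2 ^ n ∧ ∀ s ∈ p.1, f (2 ^ (r * n)) ≤ s.length then p.1 else ∅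
  | none => ∅

noncomputable def unq (c : ℕ) : ℕ :=
  match (Encodable.decode c : Option (Finset (List Bool) × ℕ)) with
  | some p => p.2
  | none => 0

/-- the member of `I_f` of a slalom -/
noncomputable def yorOf (f : ℕ → ℕ) (φ : ℕ → Finset ℕ) : Set Cantor :=
  LS fun n => (φ n).biUnion (unp f n (slowG (fun k => (φ k).sup unq) n))

theorem unp_card (f : ℕ → ℕ) (n r c : ℕ) : (unp f n r c).card ≤ 2 ^ n := by
  unfold unp
  split
  · split_ifs with h
    · exact h.1
    · simp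
  · simp

theorem unp_length {f : ℕ → ℕ} {n r c : ℕ} {s : List Bool} (h : s ∈ unp f n r c) :
    f (2 ^ (r * n)) ≤ s.length := by
  unfold unp at h
  split at h
  · split_ifs at h with h1
    · exact h1.2 s h
    · simp at h
  · simp at h

theorem yorOf_mem {f : ℕ → ℕ} (hf : Monotone f) {φ : ℕ → Finset ℕ}
    (h : ∀ n, (φ n).card ≤ 2 ^ (3 * n)) : yorOf f φ ∈ yorioka f := by
  classical
  apply LS_mem_yorioka hf
  · intro n
    refine (Finset.card_biUnion_le.trans (Finset.sum_le_card_nsmul _ _ _ fun c _ =>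
      unp_card f n _ c)).trans ?_
    rw [smul_eq_mul]
    calc (φ n).card * 2 ^ n ≤ 2 ^ (3 * n) * 2 ^ n := Nat.mul_le_mul_right _ (h n)
      _ = 2 ^ (4 * n) := by rw [← pow_add]; congr 1; ring
  · intro k
    obtain ⟨N, hN⟩ := slowG_tendsto (fun k => (φ k).sup unq) k
    refine ⟨N, fun n hn s hs => ?_⟩
    obtain ⟨c, _, hc⟩ := Finset.mem_biUnion.1 hs
    refine le_trans (hf ?_) (unp_length hc)
    exact Nat.pow_le_pow_right (by norm_num) (Nat.mul_le_mul_right _ (hN n hn))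

/-- every member of `I_f` has a code -/
theorem exists_ycode {f : ℕ → ℕ} (hf : Monotone f) {A : Set Cantor} (hA : A ∈ yorioka f) :
    ∃ x : ℕ → ℕ, ∀ φ : ℕ → Finset ℕ, (∃ n1, ∀ n ≥ n1, x n ∈ φ n) → A ⊆ yorOf f φ := by
  classical
  obtain ⟨T, hT, hr, hAT⟩ := exists_blocks_of_mem hf hA
  choose g hg using hr
  refine ⟨fun n => Encodable.encode ((T n, g n) : Finset (List Bool) × ℕ), fun φ ⟨n1, hn1⟩ => ?_⟩
  set γ : ℕ → ℕ := fun k => (φ k).sup unq with hγ
  have h1 : ∀ k ≥ n1, g k ≤ γ k := by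
    intro k hk
    have h2 := Finset.le_sup (f := unq) (hn1 k hk)
    have h3 : unq (Encodable.encode ((T k, g k) : Finset (List Bool) × ℕ)) = g k := by
      unfold unq; rw [Encodable.encodek]
    rw [h3] at h2
    exact h2
  obtain ⟨N, hN⟩ := slowG_tendsto γ (n1 + 1)
  have h4 : ∀ n ≥ max N n1, T n ⊆ (φ n).biUnion (unp f n (slowG γ n)) := by
    intro n hn s hs
    have hnN : N ≤ n := (le_max_left _ _).trans hn
    have hnn1 : n1 ≤ n := (le_max_right _ _).trans hn
    rw [Finset.mem_biUnion]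
    refine ⟨_, hn1 n hnn1, ?_⟩
    unfold unp
    rw [Encodable.encodek]
    have h5 : n1 + 1 ≤ slowG γ n := hN n hnN
    have h6 : γ (slowG γ n) ≤ n := slowG_spec (by omega)
    have h7 : g (slowG γ n) ≤ n := (h1 _ (by omega)).trans h6
    have h8 : (T n).card ≤ 2 ^ n ∧ ∀ s ∈ T n, f (2 ^ (slowG γ n * n)) ≤ s.length :=
      ⟨hT n, fun s hs => hg _ n h7 s hs⟩
    simp only
    rw [if_pos h8]
    exact hs
  refine hAT.trans ?_
  intro x hx
  change Set.Infinite _
  rw [Set.infinite_iff_exists_gt]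
  intro a
  obtain ⟨n, ⟨s, hs, hsx⟩, hn⟩ := Set.Infinite.exists_gt hx (max a (max N n1))
  exact ⟨n, ⟨s, h4 n ((le_max_right _ _).trans hn.le) hs, hsx⟩, (le_max_left _ _).trans_lt hn⟩

end Pool.Agent.H20R3.Yor
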