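import Pool.Agent.H20R3.Yor.Baire

/-!
# Block representation of the sets in the Yorioka ideals
-/

namespace Pool.Agent.H20R3.Yor

open Set MeasureTheory Cardinal Filter
open scoped ENNReal Cardinal

/-- the growth condition for block representations -/
def Rate (f : ℕ → ℕ) (T : ℕ → Finset (List Bool)) : Prop :=
  ∀ k : ℕ, ∃ m : ℕ, ∀ n ≥ m, ∀ s ∈ T n, f (2 ^ (k * n)) ≤ s.length

theorem exists_blocks {f : ℕ → ℕ} (hf : Monotone f) {σ : ℕ → List Bool}
    (h : LL f (fun i => (σ i).length)) :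
    ∃ T : ℕ → Finset (List Bool), (∀ n, (T n).card ≤ 2 ^ n) ∧ Rate f T ∧ limSet σ ⊆ LS T := by
  classical
  refine ⟨fun n => (Finset.Ico (2 ^ n) (2 ^ (n + 1))).image σ, ?_, ?_, ?_⟩
  · intro n
    refine Finset.card_image_le.trans ?_
    simp [pow_succ]
    omega
  · intro k
    obtain ⟨m, hm⟩ := h k
    refine ⟨m, fun n hn s hs => ?_⟩
    obtain ⟨i, hi, rfl⟩ := Finset.mem_image.1 hs
    rw [Finset.mem_Ico] at hi
    have h1 : m ≤ i := hn.trans (Nat.lt_two_pow_self.le.trans hi.1)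
    refine le_trans (hf ?_) (hm i h1)
    rw [mul_comm, pow_mul]
    exact Nat.pow_le_pow_left hi.1 k
  · intro x hx
    change Set.Infinite _
    rw [Set.infinite_iff_exists_gt]
    intro a
    obtain ⟨i, hi, hia⟩ := Set.Infinite.exists_gt hx (2 ^ (a + 1))
    have hi0 : i ≠ 0 := by intro h0; subst h0; exact absurd hia (Nat.not_lt_zero _)
    refine ⟨Nat.log 2 i, ⟨σ i, ?_, hi⟩, ?_⟩
    · apply Finset.mem_image_of_mem
      rw [Finset.mem_Ico]
      exact ⟨Nat.pow_log_le_self 2 hi0, Nat.lt_pow_succ_log_self (by norm_num) i⟩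
    · exact Nat.lt_of_succ_le ((Nat.le_log_iff_pow_le (by norm_num) hi0).2 hia.le)

theorem LS_mem_yorioka {f : ℕ → ℕ} (hf : Monotone f) {T : ℕ → Finset (List Bool)}
    (hT : ∀ n, (T n).card ≤ 2 ^ (4 * n)) (hr : Rate f T) : LS T ∈ yorioka f := by
  classical
  let σ : ℕ → List Bool := fun i =>
    (T (Nat.log 2 i / 5)).toList.getD (i - 2 ^ (5 * (Nat.log 2 i / 5)))
      (List.replicate (f (i ^ i)) false)
  refine ⟨σ, ?_, ?_⟩
  · intro k
    obtain ⟨m, hm⟩ := hr (10 * k)
    refine ⟨max (2 ^ (5 * (m + 1))) (k + 1), fun i hi => ?_⟩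
    have hi1 : 2 ^ (5 * (m + 1)) ≤ i := (le_max_left _ _).trans hi
    have hi2 : k + 1 ≤ i := (le_max_right _ _).trans hi
    have hi0 : i ≠ 0 := by omega
    have hlog : 5 * (m + 1) ≤ Nat.log 2 i := (Nat.le_log_iff_pow_le (by norm_num) hi0).2 hi1
    set n := Nat.log 2 i / 5 with hn
    have hmn : m + 1 ≤ n := by omega
    have hlt : i < 2 ^ (5 * (n + 1)) := by
      refine (Nat.lt_pow_succ_log_self (b := 2) (by norm_num) i).trans_le ?_
      exact Nat.pow_le_pow_right (by norm_num) (by omega)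
    change f (i ^ k) ≤ ((T n).toList.getD (i - 2 ^ (5 * n))
      (List.replicate (f (i ^ i)) false)).length
    by_cases hc : i - 2 ^ (5 * n) < (T n).toList.length
    · have h1 : (T n).toList.getD (i - 2 ^ (5 * n)) (List.replicate (f (i ^ i)) false) ∈ T n := by
        rw [List.getD_eq_getElem _ _ hc]
        exact Finset.mem_toList.1 (List.getElem_mem hc)
      refine le_trans (hf ?_) (hm n (by omega) _ h1)
      calc i ^ k ≤ (2 ^ (5 * (n + 1))) ^ k := Nat.pow_le_pow_left hlt.le k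
        _ = 2 ^ (5 * (n + 1) * k) := (pow_mul 2 (5 * (n + 1)) k).symm
        _ ≤ 2 ^ (10 * k * n) := by
          apply Nat.pow_le_pow_right (by norm_num)
          have : 5 * (n + 1) ≤ 10 * n := by omega
          calc 5 * (n + 1) * k ≤ 10 * n * k := Nat.mul_le_mul_right _ this
            _ = 10 * k * n := by ring
    · rw [List.getD_eq_default _ _ (not_lt.1 hc)]
      rw [List.length_replicate]
      exact hf (Nat.pow_le_pow_right (Nat.pos_of_ne_zero hi0) (by omega))
  · intro x hx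
    change Set.Infinite _
    rw [Set.infinite_iff_exists_gt]
    intro a
    obtain ⟨n, ⟨s, hs, hsx⟩, hn⟩ := Set.Infinite.exists_gt hx a
    obtain ⟨c, hc, hcs⟩ := List.mem_iff_getElem.1 (Finset.mem_toList.2 hs)
    have hc' : c < 2 ^ (4 * n) := by
      refine hc.trans_le ?_
      rw [Finset.length_toList]; exact hT n
    have hc2 : c < 2 ^ (5 * n) := hc'.trans_le (Nat.pow_le_pow_right (by norm_num) (by omega))
    have hlog : Nat.log 2 (2 ^ (5 * n) + c) = 5 * n := by
      apply Nat.log_eq_of_pow_le_of_lt_pow (Nat.le_add_right _ _)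
      rw [pow_succ]; omega
    have hdiv : Nat.log 2 (2 ^ (5 * n) + c) / 5 = n := by rw [hlog]; omega
    have hσ : σ (2 ^ (5 * n) + c) = s := by
      simp only [σ]
      rw [hdiv, Nat.add_sub_cancel_left, List.getD_eq_getElem _ _ hc]
      exact hcs
    refine ⟨2 ^ (5 * n) + c, ?_, ?_⟩
    · change IsInit (σ (2 ^ (5 * n) + c)) x
      rw [hσ]; exact hsx
    · have h1 : n < 2 ^ n := Nat.lt_two_pow_self
      have h2 : 2 ^ n ≤ 2 ^ (5 * n) := Nat.pow_le_pow_right (by norm_num) (by omega)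
      omega

theorem yorioka_mono {f : ℕ → ℕ} {A B : Set Cantor} (h : A ⊆ B) (hB : B ∈ yorioka f) :
    A ∈ yorioka f := by
  obtain ⟨σ, h1, h2⟩ := hB
  exact ⟨σ, h1, h.trans h2⟩

theorem exists_blocks_of_mem {f : ℕ → ℕ} (hf : Monotone f) {A : Set Cantor}
    (h : A ∈ yorioka f) :
    ∃ T : ℕ → Finset (List Bool), (∀ n, (T n).card ≤ 2 ^ n) ∧ Rate f T ∧ A ⊆ LS T := by
  obtain ⟨σ, h1, h2⟩ := h
  obtain ⟨T, h3, h4, h5⟩ := exists_blocks hf h1
  exact ⟨T, h3, h4, h2.trans h5⟩

theorem pow_bound (n : ℕ) (hn : 1 ≤ n) : 2 * n + 1 + 1 ≤ 2 ^ (2 * n) := by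
  induction n with
  | zero => omega
  | succ n ih =>
    rcases Nat.eq_zero_or_pos n with rfl | h
    · norm_num
    · have := ih h
      rw [show 2 * (n + 1) = 2 * n + 2 by ring, pow_add]
      omega

/-- the sets `V T N` of a block representation have measure less than one for large `N` -/
theorem coin_V_lt {f : ℕ → ℕ} (hf : StrictMono f) {T : ℕ → Finset (List Bool)}
    (hT : ∀ n, (T n).card ≤ 2 ^ n) (hr : Rate f T) :
    ∃ m, 1 ≤ m ∧ (∀ n ≥ m, ∀ s ∈ T n, f (2 ^ (2 * n)) ≤ s.length) ∧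
      coin (V T m) ≤ (2⁻¹ : ℝ≥0∞) ^ m := by
  obtain ⟨m, hm⟩ := hr 2
  refine ⟨max m 1, le_max_right _ _, fun n hn s hs => hm n ((le_max_left _ _).trans hn) s hs, ?_⟩
  have := tail_bound (N := max m 1) (c := 0) hT (fun n hn s hs => ?_)
  · simpa using this
  · have h1 := hm n ((le_max_left _ _).trans hn) s hs
    have h2 := hf.id_le (2 ^ (2 * n))
    have h3 := pow_bound n ((le_max_right _ _).trans hn)
    simp only [id] at h2
    omega

theorem yorioka_null {f : ℕ → ℕ} (hf : StrictMono f) {A : Set Cantor} (h : A ∈ yorioka f) :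
    coin A = 0 := by
  obtain ⟨T, h1, h2, h3⟩ := exists_blocks_of_mem hf.monotone h
  refine measure_mono_null h3 ?_
  obtain ⟨m, hm⟩ := h2 2
  have h4 : ∀ N, max m 1 ≤ N → coin (LS T) ≤ (2⁻¹ : ℝ≥0∞) ^ N := by
    intro N hN
    refine (measure_mono (LS_subset_V T N)).trans ?_
    have := tail_bound (N := N) (c := 0) h1 (fun n hn s hs => ?_)
    · simpa using this
    · have h1 := hm n ((le_max_left _ _).trans (hN.trans hn)) s hs
      have h2 := hf.id_le (2 ^ (2 * n))
      have h3 := pow_bound n ((le_max_right _ _).trans (hN.trans hn))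
      simp only [id] at h2
      omega
  have h5 : Tendsto (fun N : ℕ => (2⁻¹ : ℝ≥0∞) ^ N) atTop (nhds 0) :=
    ENNReal.tendsto_pow_atTop_nhds_zero_of_lt_one (by simp)
  exact le_antisymm (ge_of_tendsto h5 (eventually_atTop.2 ⟨_, h4⟩)) bot_le

end Pool.Agent.H20R3.Yor
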