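import Pool.Agent.H20R3.Yor.Blocks

/-!
# The capturing lemma

`P n v` is a point with initial segment `v` (of length `n`) and `L n ≥ n`. If all the points having
infinitely many of the strings `seg (P n v) (L n)` as initial segments belong to `LS T`, then for
all large `n` many of these strings are captured by strings of `T`.
-/

namespace Pool.Agent.H20R3.Yor

open Set MeasureTheory Cardinal Filter
open scoped ENNReal Cardinal

/-- the family of strings -/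
def fam (P : ∀ n : ℕ, (Fin n → Bool) → Cantor) (L : ℕ → ℕ) (n : ℕ) : Finset (List Bool) :=
  Finset.univ.image fun v : Fin n → Bool => seg (P n v) (L n)

theorem card_fam (P : ∀ n : ℕ, (Fin n → Bool) → Cantor) (L : ℕ → ℕ) (n : ℕ) :
    (fam P L n).card ≤ 2 ^ n := by
  refine Finset.card_image_le.trans ?_
  simp

/-- the cylinder of `v` -/
def Bx (n : ℕ) (v : Fin n → Bool) : Set Cantor := {x | ∀ i : Fin n, x i = v i}

theorem Bx_eq (n : ℕ) (v : Fin n → Bool) : Bx n v = Cyl (List.ofFn v) := by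
  ext x
  constructor
  · intro h j hj
    have hj' : j < n := by simpa using hj
    simpa using (h ⟨j, hj'⟩).symm
  · intro h i
    have := h i (by simp)
    simpa using this.symm

theorem coin_Bx (n : ℕ) (v : Fin n → Bool) : coin (Bx n v) = (2⁻¹ : ℝ≥0∞) ^ n := by
  rw [Bx_eq, coin_Cyl]; simp

theorem mem_Bx_self (n : ℕ) (x : Cantor) : x ∈ Bx n (fun i => x i) := fun _ => rfl

/-- many of the cylinders of `v` meet a set of positive measure -/
theorem card_pos_ge (K : Set Cantor) {d : ℕ} (hd : (2⁻¹ : ℝ≥0∞) ^ d ≤ coin K) (n : ℕ)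
    (D : Finset (Fin n → Bool)) (hD : ∀ v, coin (K ∩ Bx n v) ≠ 0 → v ∈ D) :
    2 ^ n ≤ D.card * 2 ^ d := by
  classical
  have h1 : coin K ≤ (D.card : ℝ≥0∞) * (2⁻¹ : ℝ≥0∞) ^ n := by
    have h2 : K ⊆ (⋃ v ∈ D, Bx n v) ∪ ⋃ v ∈ {v | coin (K ∩ Bx n v) = 0}, (K ∩ Bx n v) := by
      intro x hx
      by_cases hv : coin (K ∩ Bx n (fun i => x i)) = 0
      · right
        exact mem_biUnion (x := fun i : Fin n => x i) hv ⟨hx, mem_Bx_self n x⟩
      · left
        exact mem_biUnion (x := fun i : Fin n => x i) (hD _ hv) (mem_Bx_self n x)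
    have h3 : coin (⋃ v ∈ {v | coin (K ∩ Bx n v) = 0}, (K ∩ Bx n v)) = 0 :=
      (measure_biUnion_null_iff (to_countable _)).2 fun v hv => hv
    refine (measure_mono h2).trans ((measure_union_le _ _).trans ?_)
    rw [h3, add_zero]
    refine (measure_biUnion_finset_le D _).trans ?_
    refine (Finset.sum_le_card_nsmul _ _ _ fun v _ => (coin_Bx n v).le).trans ?_
    rw [nsmul_eq_mul]
  have h4 : (2 : ℝ≥0∞) ^ n ≤ (D.card : ℝ≥0∞) * 2 ^ d := by
    have h5 := hd.trans h1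
    have h6 : (2 : ℝ≥0∞) ^ n * (2 ^ d * (2⁻¹ : ℝ≥0∞) ^ d) ≤
        2 ^ n * (2 ^ d * ((D.card : ℝ≥0∞) * (2⁻¹ : ℝ≥0∞) ^ n)) := by gcongr
    have e1 : ∀ k : ℕ, (2 : ℝ≥0∞) ^ k * (2⁻¹ : ℝ≥0∞) ^ k = 1 := by
      intro k
      rw [← mul_pow, ENNReal.mul_inv_cancel (by simp) (by simp), one_pow]
    rw [e1, mul_one] at h6
    refine h6.trans (le_of_eq ?_)
    calc (2 : ℝ≥0∞) ^ n * (2 ^ d * ((D.card : ℝ≥0∞) * (2⁻¹ : ℝ≥0∞) ^ n))
        = (2 ^ n * (2⁻¹ : ℝ≥0∞) ^ n) * ((D.card : ℝ≥0∞) * 2 ^ d) := by ring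
      _ = _ := by rw [e1, one_mul]
  exact_mod_cast h4

theorem exists_pow_le {a : ℝ≥0∞} (ha : a ≠ 0) : ∃ d : ℕ, (2⁻¹ : ℝ≥0∞) ^ d ≤ a := by
  have h5 : Tendsto (fun N : ℕ => (2⁻¹ : ℝ≥0∞) ^ N) atTop (nhds 0) :=
    ENNReal.tendsto_pow_atTop_nhds_zero_of_lt_one (by simp)
  have h6 := h5.eventually (gt_mem_nhds (pos_iff_ne_zero.2 ha))
  obtain ⟨d, hd⟩ := h6.exists
  exact ⟨d, hd.le⟩

variable {T : ℕ → Finset (List Bool)} {m : ℕ} {P : ∀ n : ℕ, (Fin n → Bool) → Cantor} {L : ℕ → ℕ}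

/-- the good `v` at level `n` -/
def Good (T : ℕ → Finset (List Bool)) (m : ℕ) (P : ∀ n : ℕ, (Fin n → Bool) → Cantor)
    (L : ℕ → ℕ) (n : ℕ) : Set (Fin n → Bool) :=
  {v | coin ((V T m)ᶜ ∩ Bx n v) ≠ 0 ∧ coin ((V T m)ᶜ ∩ Cyl (seg (P n v) (L n))) = 0}

/-- the capturing lemma -/
theorem capture (hV : coin (V T m) ≤ (2⁻¹ : ℝ≥0∞) ^ m) (hm : 1 ≤ m)
    (hP : ∀ n v, P n v ∈ Bx n v) (hL : ∀ n, n ≤ L n) (hLS : LS (fam P L) ⊆ LS T) :
    ∃ d n0 : ℕ, ∀ n ≥ n0, ∀ D : Finset (Fin n → Bool), (∀ v ∈ Good T m P L n, v ∈ D) →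
      2 ^ n ≤ D.card * 2 ^ d := by
  classical
  set K := (V T m)ᶜ with hK
  have hKc : IsClosed K := (isOpen_V T m).isClosed_compl
  have hKpos : coin K ≠ 0 := by
    intro h0
    have h1 : coin Set.univ ≤ coin K + coin (V T m) := by
      rw [← compl_union_self (V T m)]
      exact measure_union_le _ _
    rw [h0, zero_add, measure_univ] at h1
    have h2 := h1.trans hV
    have h3 : (2⁻¹ : ℝ≥0∞) ^ m ≤ (2⁻¹ : ℝ≥0∞) ^ 1 := pow_le_pow_right_of_le_one' (by simp) hm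
    have h4 := h2.trans h3
    rw [pow_one] at h4
    exact absurd h4 (by simp)
  let G : ℕ → Set Cantor := fun n => ⋃ s ∈ fam P L n, Cyl s
  have hG : ∀ n, IsOpen (G n) := fun n => isOpen_biUnion fun _ _ => (isClopen_Cyl _).isOpen
  obtain ⟨u, hu, n0, hn0⟩ := baire hKc hKpos hG (by
    intro x hx hinf
    have h1 : x ∈ LS (fam P L) := by
      refine hinf.mono ?_
      intro n hn
      simpa [G, Cyl] using hn
    exact hx (LS_subset_V T m (hLS h1)))
  obtain ⟨d, hd⟩ := exists_pow_le hu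
  refine ⟨d, max n0 u.length, fun n hn D hD => ?_⟩
  have hn1 : n0 ≤ n := (le_max_left _ _).trans hn
  have hn2 : u.length ≤ n := (le_max_right _ _).trans hn
  refine card_pos_ge (K ∩ Cyl u) hd n D (fun v hv => hD v ⟨?_, ?_⟩)
  · intro h0
    exact hv (measure_mono_null (by
      rintro x ⟨⟨h1, _⟩, h3⟩
      exact ⟨h1, h3⟩) h0)
  · have h1 : Bx n v ⊆ Cyl u := by
      rw [Bx_eq]
      apply Cyl_subset_of_meet
      · obtain ⟨x, ⟨_, hx⟩, hx'⟩ := nonempty_of_measure_ne_zero hv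
        rw [Bx_eq] at hx'
        exact ⟨x, hx, hx'⟩
      · simpa using hn2
    have h2 : Cyl (seg (P n v) (L n)) ⊆ Bx n v := by
      have h3 : Bx n v = Cyl (seg (P n v) n) := by
        rw [Bx_eq]
        congr 1
        have := hP n v
        rw [Bx_eq] at this
        have h4 := eq_seg_of_mem this
        simpa using h4
      rw [h3]
      exact Cyl_seg_anti _ (hL n)
    refine measure_mono_null ?_ (hn0 n hn1)
    rintro x ⟨hx, hx'⟩
    refine ⟨⟨hx, h1 (h2 hx')⟩, ?_⟩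
    simp only [G, mem_iUnion, exists_prop]
    exact ⟨_, Finset.mem_image_of_mem _ (Finset.mem_univ v), hx'⟩

/-- a good `v` does not meet short strings -/
theorem Good.long {n : ℕ} {v : Fin n → Bool} (h : v ∈ Good T m P L n) {n' : ℕ} (hn' : m ≤ n')
    {s : List Bool} (hs : s ∈ T n') (hne : (Cyl s ∩ Bx n v).Nonempty) : n < s.length := by
  by_contra hc
  apply h.1
  have h1 : Bx n v ⊆ Cyl s := by
    rw [Bx_eq] at hne ⊢
    exact Cyl_subset_of_meet hne (by simpa using hc)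
  have h2 : (V T m)ᶜ ∩ Bx n v = ∅ := by
    rw [eq_empty_iff_forall_notMem]
    rintro x ⟨hx, hx'⟩
    exact hx (mem_V.2 ⟨n', hn', s, hs, h1 hx'⟩)
  rw [h2, measure_empty]

/-- a good `v` is captured -/
theorem Good.captured (hT : ∀ n, (T n).card ≤ 2 ^ n) {n : ℕ} {v : Fin n → Bool}
    (h : v ∈ Good T m P L n) {N : ℕ} (hN : 1 ≤ N)
    (hNs : ∀ n' ≥ N, ∀ s ∈ T n', 2 * n' + 1 + L n ≤ s.length) :
    ∃ n', m ≤ n' ∧ n' < N ∧ ∃ s ∈ T n', (Cyl s ∩ Cyl (seg (P n v) (L n))).Nonempty := by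
  by_contra hcon
  push Not at hcon
  set C := Cyl (seg (P n v) (L n)) with hC
  have h1 : C ⊆ ((V T m)ᶜ ∩ C) ∪ V T N := by
    intro x hx
    by_cases hxV : x ∈ V T m
    · right
      obtain ⟨n', hn', s, hs, hxs⟩ := mem_V.1 hxV
      by_cases hlt : n' < N
      · have := hcon n' hn' hlt s hs
        exact absurd (show x ∈ Cyl s ∩ C from ⟨hxs, hx⟩) (by rw [this]; exact notMem_empty x)
      · exact mem_V.2 ⟨n', not_lt.1 hlt, s, hs, hxs⟩
    · exact Or.inl ⟨hxV, hx⟩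
  have h2 : coin C ≤ coin (V T N) := by
    refine (measure_mono h1).trans ((measure_union_le _ _).trans ?_)
    rw [h.2, zero_add]
  have h3 := h2.trans (tail_bound hT hNs)
  rw [hC, coin_Cyl, length_seg] at h3
  have h4 : (2⁻¹ : ℝ≥0∞) ^ (N + L n) < (2⁻¹ : ℝ≥0∞) ^ (L n) := by
    rw [pow_add]
    have h5 : (2⁻¹ : ℝ≥0∞) ^ N < 1 := pow_lt_one₀ bot_le (by simp) (by omega)
    calc (2⁻¹ : ℝ≥0∞) ^ N * 2⁻¹ ^ L n < 1 * 2⁻¹ ^ L n := by
          apply ENNReal.mul_lt_mul_left (by simp) (by simp) h5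
      _ = _ := one_mul _
  exact absurd h3 (not_le.2 h4)

theorem Cyl_seg_subset_Bx (hP : ∀ n v, P n v ∈ Bx n v) (hL : ∀ n, n ≤ L n) (n : ℕ)
    (v : Fin n → Bool) : Cyl (seg (P n v) (L n)) ⊆ Bx n v := by
  intro y hy i
  rw [← hP n v i]
  exact (mem_Cyl_seg.1 hy i (i.2.trans_le (hL n))).symm

/-- the strings longer than `n` meeting the cylinder of `v` determine `v` -/
theorem determine {n : ℕ} {v v' : Fin n → Bool} {s : List Bool} (hs : n < s.length)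
    (h : (Cyl s ∩ Bx n v).Nonempty) (h' : (Cyl s ∩ Bx n v').Nonempty) : v = v' := by
  obtain ⟨x, hx, hxv⟩ := h
  obtain ⟨y, hy, hyv⟩ := h'
  funext i
  rw [← hxv i, ← hyv i, ← hx i (i.2.trans hs), ← hy i (i.2.trans hs)]

theorem card_biUnion_lt {T : ℕ → Finset (List Bool)} (hT : ∀ n, (T n).card ≤ 2 ^ n) (N : ℕ) :
    ((Finset.range N).biUnion T).card < 2 ^ N := by
  refine (Finset.card_biUnion_le.trans (Finset.sum_le_sum fun i _ => hT i)).trans_lt ?_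
  rw [Nat.geomSum_eq (le_refl 2)]
  simp

end Pool.Agent.H20R3.Yor
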