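import Mathlib

/-!
# Yorioka ideals and the null ideal: definitions
-/

namespace Pool.Agent.H20R3.Yor

open Set MeasureTheory Cardinal Filter
open scoped ENNReal Cardinal

/-- The Cantor space `2^ω`. -/
abbrev Cantor : Type := ℕ → Bool

/-- The standard product (fair coin-tossing, Lebesgue) measure on the Cantor space. -/
noncomputable def coin : Measure Cantor :=
  Measure.infinitePi fun _ : ℕ => (PMF.uniformOfFintype Bool).toMeasure

/-- The finite sequence `s` is an initial segment of `x`. -/
def IsInit (s : List Bool) (x : Cantor) : Prop :=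
  ∀ (j : ℕ) (h : j < s.length), s[j] = x j

/-- `[σ]_∞`: the points with infinitely many `σ i` (`i < ω`) as initial segments. -/
def limSet (σ : ℕ → List Bool) : Set Cantor := {x | {i | IsInit (σ i) x}.Infinite}

/-- `f ≪ h`: for every `k < ω`, `f (i ^ k) ≤ h i` for all but finitely many `i`. -/
def LL (f h : ℕ → ℕ) : Prop := ∀ k : ℕ, ∃ m : ℕ, ∀ i : ℕ, m ≤ i → f (i ^ k) ≤ h i

/-- The Yorioka ideal `I_f`. -/
def yorioka (f : ℕ → ℕ) : Set (Set Cantor) :=
  {A | ∃ σ : ℕ → List Bool, LL f (fun i => (σ i).length) ∧ A ⊆ limSet σ}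

/-- The ideal of the Lebesgue null subsets of the Cantor space. -/
def nullIdeal : Set (Set Cantor) := {A | coin A = 0}

/-- `add(I)`: the least size of a subfamily of `I` whose union is not in `I`. -/
noncomputable def addNum (I : Set (Set Cantor)) : Cardinal.{0} :=
  sInf {κ | ∃ F : Set (Set Cantor), F ⊆ I ∧ ⋃₀ F ∉ I ∧ #F = κ}

/-- `cof(I)`: the least size of a subfamily `F` of `I` such that every member of `I` is contained
in a member of `F`. -/
noncomputable def cofNum (I : Set (Set Cantor)) : Cardinal.{0} :=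
  sInf {κ | ∃ F : Set (Set Cantor), F ⊆ I ∧ (∀ A ∈ I, ∃ B ∈ F, A ⊆ B) ∧ #F = κ}

/-- `minadd`: the least additivity of a Yorioka ideal `I_f`, `f` strictly increasing. -/
noncomputable def minadd : Cardinal.{0} :=
  ⨅ f : {f : ℕ → ℕ // StrictMono f}, addNum (yorioka f)

/-- `supcof`: the supremum of the cofinalities of the Yorioka ideals `I_f`, `f` strictly
increasing. -/
noncomputable def supcof : Cardinal.{0} :=
  ⨆ f : {f : ℕ → ℕ // StrictMono f}, cofNum (yorioka f)

/-! ### Cylinders -/

instance : IsProbabilityMeasure coin := by unfold coin; infer_instance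

/-- the basic clopen set of `s` -/
def Cyl (s : List Bool) : Set Cantor := {x | IsInit s x}

/-- the initial segment of length `L` of `x` -/
def seg (x : Cantor) (L : ℕ) : List Bool := List.ofFn fun i : Fin L => x i

@[simp] theorem length_seg (x : Cantor) (L : ℕ) : (seg x L).length = L := by simp [seg]

theorem mem_Cyl {s : List Bool} {x : Cantor} : x ∈ Cyl s ↔ IsInit s x := Iff.rfl

theorem mem_Cyl_seg {x y : Cantor} {L : ℕ} : y ∈ Cyl (seg x L) ↔ ∀ i < L, x i = y i := by
  constructor
  · intro h i hi
    have := h i (by simpa using hi)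
    simpa [seg] using this
  · intro h i hi
    have hi' : i < L := by simpa using hi
    have := h i hi'
    simpa [seg] using this

theorem eq_seg (s : List Bool) : s = seg (fun i => s.getD i false) s.length := by
  apply List.ext_getElem
  · simp
  · intro i h1 h2
    simp [seg, List.getD_eq_getElem?_getD, h1]

theorem self_mem (x : Cantor) (L : ℕ) : x ∈ Cyl (seg x L) := mem_Cyl_seg.2 fun _ _ => rfl

theorem Cyl_nonempty (s : List Bool) : (Cyl s).Nonempty := by
  rw [eq_seg s]; exact ⟨_, self_mem _ _⟩

theorem eq_seg_of_mem {s : List Bool} {x : Cantor} (h : x ∈ Cyl s) : s = seg x s.length := by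
  apply List.ext_getElem
  · simp
  · intro i h1 h2
    rw [h i h1]
    simp [seg]

theorem Cyl_seg_anti (x : Cantor) {L M : ℕ} (h : L ≤ M) : Cyl (seg x M) ⊆ Cyl (seg x L) :=
  fun _ hy => mem_Cyl_seg.2 fun i hi => mem_Cyl_seg.1 hy i (hi.trans_le h)

theorem Cyl_subset_of_meet {s t : List Bool} (h : (Cyl s ∩ Cyl t).Nonempty)
    (hl : s.length ≤ t.length) : Cyl t ⊆ Cyl s := by
  obtain ⟨x, hx, hx'⟩ := h
  rw [eq_seg_of_mem hx, eq_seg_of_mem hx']
  simpa using Cyl_seg_anti x hl

theorem isClopen_Cyl (s : List Bool) : IsClopen (Cyl s) := by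
  have h : Cyl s = ⋂ j : Fin s.length, (fun x : Cantor => x j) ⁻¹' {s[j]} := by
    ext x
    simp only [mem_iInter, mem_preimage, mem_singleton_iff]
    exact ⟨fun h j => (h j j.2).symm, fun h j hj => (h ⟨j, hj⟩).symm⟩
  rw [h]
  exact isClopen_iInter_of_finite fun j =>
    (isClopen_discrete _).preimage (continuous_apply _)

theorem measurable_Cyl (s : List Bool) : MeasurableSet (Cyl s) :=
  (isClopen_Cyl s).isOpen.measurableSet

theorem coin_Cyl (s : List Bool) : coin (Cyl s) = (2⁻¹ : ℝ≥0∞) ^ s.length := by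
  have h : Cyl s = Set.pi (Finset.range s.length) (fun j => {s.getD j false}) := by
    ext x
    simp only [Set.mem_pi, Finset.coe_range, mem_Iio, mem_singleton_iff]
    constructor
    · intro h j hj
      rw [← h j hj]
      simp [List.getD_eq_getElem?_getD, hj]
    · intro h j hj
      rw [h j hj]
      simp [List.getD_eq_getElem?_getD, hj]
  rw [h, coin, Measure.infinitePi_pi _ (fun _ _ => measurableSet_singleton _)]
  rw [Finset.prod_congr rfl (g := fun _ => (2⁻¹ : ℝ≥0∞))]
  · simp
  · intro j _
    rw [PMF.toMeasure_apply_singleton _ _ (measurableSet_singleton _)]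
    simp

/-- every open set is the union of the cylinders contained in it -/
theorem exists_Cyl {U : Set Cantor} (hU : IsOpen U) {x : Cantor} (hx : x ∈ U) :
    ∃ L, Cyl (seg x L) ⊆ U := by
  obtain ⟨I, u, hu, hsub⟩ := isOpen_pi_iff.1 hU x hx
  refine ⟨I.sup id + 1, fun y hy => hsub ?_⟩
  intro i hi
  have h1 : i < I.sup id + 1 := Nat.lt_succ_of_le (Finset.le_sup (f := id) hi)
  rw [← mem_Cyl_seg.1 hy i h1]
  exact (hu i hi).2

end Pool.Agent.H20R3.Yor
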