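import Pool.Agent.H20R3.Yor.Localize

/-!
# The ideal `I_id` and eventual domination
-/

namespace Pool.Agent.H20R3.Yor

open Set MeasureTheory Cardinal Filter
open scoped ENNReal Cardinal

/-- a monotone function above `g` -/
def up (g : ℕ → ℕ) (k : ℕ) : ℕ := ∑ j ∈ Finset.range (k + 1), g j

theorem le_up (g : ℕ → ℕ) (k : ℕ) : g k ≤ up g k :=
  Finset.single_le_sum (f := g) (fun _ _ => Nat.zero_le _) (Finset.self_mem_range_succ k)

theorem up_mono (g : ℕ → ℕ) : Monotone (up g) := by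
  intro a b h
  unfold up
  exact Finset.sum_le_sum_of_subset (Finset.range_mono (by omega))

/-- the slow rate -/
def slow (g : ℕ → ℕ) (n : ℕ) : ℕ := Nat.findGreatest (fun k => up g k ≤ n) n

theorem le_slow {g : ℕ → ℕ} {k n : ℕ} (h1 : k ≤ n) (h2 : up g k ≤ n) : k ≤ slow g n :=
  Nat.le_findGreatest h1 h2

theorem up_slow {g : ℕ → ℕ} {n : ℕ} (h : slow g n ≠ 0) : up g (slow g n) ≤ n :=
  Nat.findGreatest_of_ne_zero (P := fun k => up g k ≤ n) rfl h

/-- the member of `I_id` coding `g` -/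
def domSet (g : ℕ → ℕ) : Set Cantor := LS (fam (pt fun _ => 0) fun n => 2 ^ (n * (slow g n + 1)))

theorem domSet_mem (g : ℕ → ℕ) : domSet g ∈ yorioka id := by
  apply LS_mem_yorioka monotone_id
  · intro n
    exact (card_fam _ _ n).trans (Nat.pow_le_pow_right (by norm_num) (by omega))
  · intro k
    refine ⟨max k (up g k), fun n hn s hs => ?_⟩
    obtain ⟨v, _, rfl⟩ := Finset.mem_image.1 hs
    rw [length_seg]
    simp only [id]
    apply Nat.pow_le_pow_right (by norm_num)
    rw [mul_comm]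
    apply Nat.mul_le_mul_left
    have := le_slow ((le_max_left _ _).trans hn) ((le_max_right _ _).trans hn)
    omega

theorem num_bound2 {a z : ℕ} (ha : 1 ≤ a) (hz : 2 ≤ z) : z + 1 + a ≤ a * 2 ^ z := by
  have h1 : z + 2 ≤ 2 ^ z := by
    obtain ⟨w, rfl⟩ := Nat.exists_eq_add_of_le hz
    clear hz
    induction w with
    | zero => norm_num
    | succ w ih =>
      rw [show 2 + (w + 1) = 2 + w + 1 by ring, pow_succ]
      omega
  have h2 : a * (z + 2) ≤ a * 2 ^ z := Nat.mul_le_mul_left _ h1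
  have h3 : 1 * (z + 1) ≤ a * (z + 1) := Nat.mul_le_mul_right _ ha
  have h4 : a * (z + 2) = a * (z + 1) + a := by ring
  omega

theorem dominate {T : ℕ → Finset (List Bool)} (hT : ∀ n, (T n).card ≤ 2 ^ n)
    {M : ℕ → ℕ} (hM : ∀ k, ∀ n ≥ M k, ∀ s ∈ T n, 2 ^ (k * n) ≤ s.length) {g : ℕ → ℕ}
    (h : domSet g ⊆ LS T) : ∃ k0, ∀ k ≥ k0, g k ≤ M (2 * k + 2) + k := by
  classical
  have hr : Rate id T := fun k => ⟨M k, fun n hn s hs => hM k n hn s hs⟩
  obtain ⟨m, hm1, hm, hV⟩ := coin_V_lt strictMono_id hT hr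
  have hL : ∀ n, n ≤ 2 ^ (n * (slow g n + 1)) := by
    intro n
    refine Nat.lt_two_pow_self.le.trans (Nat.pow_le_pow_right (by norm_num) ?_)
    exact Nat.le_mul_of_pos_right _ (Nat.succ_pos _)
  obtain ⟨d, n0, hcap⟩ := capture hV hm1 (pt_mem _) hL h
  refine ⟨n0 + 3 * d + 3, fun k hk => ?_⟩
  set n := M (2 * k + 2) + k with hn
  have key : k ≤ slow g n := by
    by_contra hcon
    have hcon' : slow g n + 1 ≤ k := not_le.1 hcon
    have hall : ∀ v ∈ Good T m (pt fun _ => 0) (fun n => 2 ^ (n * (slow g n + 1))) n,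
        ∃ n' < n - d, ∃ s ∈ T n', n < s.length ∧ (Cyl s ∩ Bx n v).Nonempty := by
      intro v hv
      obtain ⟨n', hn'm, hn'N, s, hs, y, hy, hy'⟩ := Good.captured hT hv (N := n - d) (by omega)
        (fun n' hn' s hs => by
          refine le_trans ?_ (hM (2 * k + 2) n' (by omega) s hs)
          have h1 : 2 ^ (n * (slow g n + 1)) ≤ 2 ^ (2 * n' * k) := by
            apply Nat.pow_le_pow_right (by norm_num)
            exact Nat.mul_le_mul (by omega) hcon'
          have h2 := num_bound2 (a := 2 ^ (2 * n' * k)) (z := 2 * n') Nat.one_le_two_pow (by omega)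
          have h3 : 2 ^ (2 * n' * k) * 2 ^ (2 * n') = 2 ^ ((2 * k + 2) * n') := by
            rw [← pow_add]; congr 1; ring
          rw [h3] at h2
          omega)
      have hyB : y ∈ Bx n v := Cyl_seg_subset_Bx (pt_mem _) hL n v hy'
      exact ⟨n', hn'N, s, hs, Good.long hv hn'm hs ⟨y, hy, hyB⟩, y, hy, hyB⟩
    let D : Finset (Fin n → Bool) := Finset.univ.filter fun v =>
      ∃ n' < n - d, ∃ s ∈ T n', n < s.length ∧ (Cyl s ∩ Bx n v).Nonempty
    have h1 := hcap n (by omega) D (fun v hv => by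
      simp only [D, Finset.mem_filter, Finset.mem_univ, true_and]
      exact hall v hv)
    have h2 := card_killed hT n (n - d) D (fun v hv => by
      simpa only [D, Finset.mem_filter, Finset.mem_univ, true_and] using hv)
    have h3 : 2 ^ n < 2 ^ (n - d) * 2 ^ d :=
      h1.trans_lt (Nat.mul_lt_mul_of_pos_right h2 (by positivity))
    rw [← pow_add] at h3
    have h4 := (Nat.pow_lt_pow_iff_right (by norm_num)).1 h3
    omega
  have h5 : slow g n ≠ 0 := by omega
  exact (le_up g k).trans ((up_mono g key).trans (up_slow h5))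

end Pool.Agent.H20R3.Yor
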