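import Pool.Agent.H20R3.Yor.Bart

/-!
# The cardinal invariants
-/

namespace Pool.Agent.H20R3.Yor

open Set MeasureTheory Cardinal Filter
open scoped ENNReal Cardinal

theorem singleton_mem {f : ℕ → ℕ} (hf : Monotone f) (x : Cantor) : {x} ∈ yorioka f := by
  refine ⟨fun i => seg x (f (i ^ i)), fun k => ⟨k + 1, fun i hi => ?_⟩, ?_⟩
  · simp only [length_seg]
    exact hf (Nat.pow_le_pow_right (by omega) (by omega))
  · rintro y rfl
    change Set.Infinite _
    have : {i | IsInit (seg y (f (i ^ i))) y} = Set.univ := by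
      ext i
      simp only [mem_univ, iff_true]
      exact self_mem y _
    rw [this]
    exact Set.infinite_univ

theorem sUnion_yorioka {f : ℕ → ℕ} (hf : Monotone f) : ⋃₀ yorioka f = Set.univ := by
  rw [eq_univ_iff_forall]
  intro x
  exact ⟨{x}, singleton_mem hf x, rfl⟩

theorem univ_notMem_null : (Set.univ : Set Cantor) ∉ nullIdeal := by
  intro h
  have h' : coin Set.univ = 0 := h
  rw [measure_univ] at h'
  exact one_ne_zero h'

theorem yorioka_subset_null {f : ℕ → ℕ} (hf : StrictMono f) : yorioka f ⊆ nullIdeal :=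
  fun _ hA => yorioka_null hf hA

theorem univ_notMem_yorioka {f : ℕ → ℕ} (hf : StrictMono f) :
    (Set.univ : Set Cantor) ∉ yorioka f := fun h => univ_notMem_null (yorioka_subset_null hf h)

theorem null_mono {A B : Set Cantor} (h : A ⊆ B) (hB : B ∈ nullIdeal) : A ∈ nullIdeal :=
  measure_mono_null h hB

theorem exists_add {I : Set (Set Cantor)} (h : ⋃₀ I ∉ I) :
    ∃ F : Set (Set Cantor), F ⊆ I ∧ ⋃₀ F ∉ I ∧ #F = addNum I :=
  csInf_mem (s := {κ | ∃ F : Set (Set Cantor), F ⊆ I ∧ ⋃₀ F ∉ I ∧ #F = κ})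
    ⟨_, I, subset_rfl, h, rfl⟩

theorem exists_cof (I : Set (Set Cantor)) :
    ∃ F : Set (Set Cantor), F ⊆ I ∧ (∀ A ∈ I, ∃ B ∈ F, A ⊆ B) ∧ #F = cofNum I :=
  csInf_mem (s := {κ | ∃ F : Set (Set Cantor), F ⊆ I ∧ (∀ A ∈ I, ∃ B ∈ F, A ⊆ B) ∧ #F = κ})
    ⟨_, I, subset_rfl, fun A hA => ⟨A, hA, subset_rfl⟩, rfl⟩

theorem addNum_le {I F : Set (Set Cantor)} (hF : F ⊆ I) (h : ⋃₀ F ∉ I) : addNum I ≤ #F :=
  csInf_le' ⟨F, hF, h, rfl⟩

theorem cofNum_le {I F : Set (Set Cantor)} (hF : F ⊆ I) (h : ∀ A ∈ I, ∃ B ∈ F, A ⊆ B) :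
    cofNum I ≤ #F :=
  csInf_le' ⟨F, hF, h, rfl⟩

theorem sUnion_mem {I F : Set (Set Cantor)} (hF : F ⊆ I) (h : #F < addNum I) : ⋃₀ F ∈ I := by
  by_contra hc
  exact absurd (addNum_le hF hc) (not_le.2 h)

/-! ### `add(N) ≤ add(I_f)` and `cof(I_f) ≤ cof(N)` -/

theorem add_null_le {f : ℕ → ℕ} (hf : StrictMono f) : addNum nullIdeal ≤ addNum (yorioka f) := by
  classical
  obtain ⟨F, hF, hU, hc⟩ := exists_add (I := yorioka f) (by
    rw [sUnion_yorioka hf.monotone]; exact univ_notMem_yorioka hf)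
  rw [← hc]
  have hcode : ∀ A ∈ F, ∃ x : ℕ → ℕ, ∀ φ : ℕ → Finset ℕ, (∃ n1, ∀ n ≥ n1, x n ∈ φ n) →
      A ⊆ yorOf f φ := fun A hA => exists_ycode hf.monotone (hF hA)
  choose! x hx using hcode
  have h1 : (fun A => nullG (x A)) '' F ⊆ nullIdeal := by
    rintro _ ⟨A, _, rfl⟩
    exact nullG_null _
  refine (addNum_le h1 ?_).trans mk_image_le
  intro hZ
  obtain ⟨φ, hφ, hφ'⟩ := bart (show coin _ = 0 from hZ)
  apply hU
  refine yorioka_mono ?_ (yorOf_mem hf.monotone hφ)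
  apply sUnion_subset
  intro A hA
  exact hx A hA φ (hφ' _ (subset_sUnion_of_mem (mem_image_of_mem _ hA)))

theorem cof_le_null {f : ℕ → ℕ} (hf : StrictMono f) : cofNum (yorioka f) ≤ cofNum nullIdeal := by
  classical
  obtain ⟨F, hF, hC, hc⟩ := exists_cof nullIdeal
  rw [← hc]
  have hb : ∀ Z ∈ F, ∃ φ : ℕ → Finset ℕ, (∀ n, (φ n).card ≤ 2 ^ (3 * n)) ∧
      ∀ x : ℕ → ℕ, nullG x ⊆ Z → ∃ n1, ∀ n ≥ n1, x n ∈ φ n := fun Z hZ => bart (hF hZ)
  choose! φ hφ hφ' using hb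
  have h1 : (fun Z => yorOf f (φ Z)) '' F ⊆ yorioka f := by
    rintro _ ⟨Z, hZ, rfl⟩
    exact yorOf_mem hf.monotone (hφ Z hZ)
  refine (cofNum_le h1 ?_).trans mk_image_le
  intro A hA
  obtain ⟨x, hx⟩ := exists_ycode hf.monotone hA
  obtain ⟨Z, hZ, hxZ⟩ := hC (nullG x) (nullG_null x)
  exact ⟨_, mem_image_of_mem _ hZ, hx _ (hφ' Z hZ x hxZ)⟩

/-! ### The other inequalities -/

theorem minadd_le_add {f : ℕ → ℕ} (hf : StrictMono f) : minadd ≤ addNum (yorioka f) :=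
  ciInf_le' (fun f : {f : ℕ → ℕ // StrictMono f} => addNum (yorioka f)) ⟨f, hf⟩

theorem cof_le_supcof {f : ℕ → ℕ} (hf : StrictMono f) : cofNum (yorioka f) ≤ supcof :=
  le_ciSup (f := fun f : {f : ℕ → ℕ // StrictMono f} => cofNum (yorioka f))
    Cardinal.bddAbove_of_small ⟨f, hf⟩

/-- the bound obtained from the rates -/
def bd (M : ℕ → ℕ) (k : ℕ) : ℕ := M (2 * k + 2) + k + 1

/-- the truncated function -/
def tr (b x : ℕ → ℕ) (k : ℕ) : ℕ := min (x k) (b k - 1)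

theorem minadd_le : minadd ≤ addNum nullIdeal := by
  classical
  by_contra hlt
  rw [not_le] at hlt
  obtain ⟨F, hF, hU, hc⟩ := exists_add (I := nullIdeal) (fun h => univ_notMem_null (by
    refine null_mono ?_ h
    rw [← sUnion_yorioka monotone_id]
    exact sUnion_subset_sUnion (yorioka_subset_null strictMono_id)))
  rw [← hc] at hlt
  have hcode : ∀ Z ∈ F, ∃ x : ℕ → ℕ, ∀ φ : ℕ → Finset ℕ, (∃ n1, ∀ n ≥ n1, x n ∈ φ n) →
      Z ⊆ nullOf φ := fun Z hZ => exists_code (hF hZ)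
  choose! x hx using hcode
  -- domination
  have h1 : (fun Z => domSet (x Z)) '' F ⊆ yorioka id := by
    rintro _ ⟨A, _, rfl⟩
    exact domSet_mem _
  have h2 := sUnion_mem h1 (mk_image_le.trans_lt (hlt.trans_le (minadd_le_add strictMono_id)))
  obtain ⟨T, hT, hr, hsub⟩ := exists_blocks_of_mem monotone_id h2
  choose M hM using hr
  have h3 : ∀ Z ∈ F, ∃ k0, ∀ k ≥ k0, x Z k ≤ M (2 * k + 2) + k := fun Z hZ =>
    dominate hT hM ((subset_sUnion_of_mem (mem_image_of_mem _ hZ)).trans hsub)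
  -- localization
  have hb : ∀ y : ℕ → ℕ, ∀ n, tr (bd M) y n < bd M n := by
    intro y n
    unfold tr bd
    omega
  have h4 : (fun Z => codeSet (fb (bd M)) (tr (bd M) (x Z))) '' F ⊆ yorioka (fb (bd M)) := by
    rintro _ ⟨A, _, rfl⟩
    exact codeSet_mem (fb_strictMono _) _
  have h5 := sUnion_mem h4
    (mk_image_le.trans_lt (hlt.trans_le (minadd_le_add (fb_strictMono _))))
  obtain ⟨T', hT', hr', hsub'⟩ := exists_blocks_of_mem (fb_strictMono _).monotone h5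
  apply hU
  refine null_mono ?_ (show nullOf (slal T') ∈ nullIdeal from nullOf_null (card_slal hT'))
  apply sUnion_subset
  intro Z hZ
  apply hx Z hZ
  obtain ⟨k0, hk0⟩ := h3 Z hZ
  obtain ⟨n1, hn1⟩ := localize (bd M) hT' hr' (hb (x Z))
    ((subset_sUnion_of_mem (mem_image_of_mem _ hZ)).trans hsub')
  refine ⟨max k0 n1, fun n hn => ?_⟩
  have h6 := hn1 n ((le_max_right _ _).trans hn)
  have h7 := hk0 n ((le_max_left _ _).trans hn)
  have h8 : tr (bd M) (x Z) n = x Z n := by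
    unfold tr bd
    omega
  rwa [h8] at h6

theorem aleph0_le_supcof : ℵ₀ ≤ supcof := by
  refine le_trans ?_ (cof_le_supcof strictMono_id)
  obtain ⟨F, hF, hC, hc⟩ := exists_cof (yorioka id)
  rw [← hc]
  by_contra hlt
  have hcount : F.Countable := by
    rw [← Cardinal.le_aleph0_iff_set_countable]
    exact (not_le.1 hlt).le
  apply univ_notMem_null
  refine null_mono ?_ (show ⋃₀ F ∈ nullIdeal from
    (measure_sUnion_null_iff hcount).2 fun A hA => yorioka_null strictMono_id (hF hA))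
  rw [← sUnion_yorioka monotone_id]
  apply sUnion_subset
  intro A hA
  obtain ⟨B, hB, hAB⟩ := hC A hA
  exact hAB.trans (subset_sUnion_of_mem hB)

theorem le_supcof : cofNum nullIdeal ≤ supcof := by
  classical
  have hC0 := fun f : ℕ → ℕ => exists_cof (yorioka f)
  choose C hCs hCc hC using hC0
  have h1 : ∀ B ∈ C id, ∃ (T : ℕ → Finset (List Bool)) (M : ℕ → ℕ), (∀ n, (T n).card ≤ 2 ^ n) ∧
      (∀ k, ∀ n ≥ M k, ∀ s ∈ T n, 2 ^ (k * n) ≤ s.length) ∧ B ⊆ LS T := by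
    intro B hB
    obtain ⟨T, hT, hr, hsub⟩ := exists_blocks_of_mem monotone_id (hCs id hB)
    choose M hM using hr
    exact ⟨T, M, hT, hM, hsub⟩
  choose! T M hT hM hsub using h1
  have h2 : ∀ (b : ℕ → ℕ), ∀ B ∈ C (fb b), ∃ T : ℕ → Finset (List Bool),
      (∀ n, (T n).card ≤ 2 ^ n) ∧ Rate (fb b) T ∧ B ⊆ LS T := fun b B hB =>
    exists_blocks_of_mem (fb_strictMono b).monotone (hCs _ hB)
  choose! T' hT' hr' hsub' using h2
  let ι : Type := Σ B : C id, C (fb (bd (M B.1)))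
  let W : ι → Set Cantor := fun p => nullOf (slal (T' (bd (M p.1.1)) p.2.1))
  have h3 : range W ⊆ nullIdeal := by
    rintro _ ⟨p, rfl⟩
    exact nullOf_null (card_slal (hT' _ _ p.2.2))
  have h4 : ∀ Z ∈ nullIdeal, ∃ B ∈ range W, Z ⊆ B := by
    intro Z hZ
    obtain ⟨x, hx⟩ := exists_code hZ
    obtain ⟨B, hB, hxB⟩ := hCc id (domSet x) (domSet_mem x)
    obtain ⟨k0, hk0⟩ := dominate (hT B hB) (hM B hB) (hxB.trans (hsub B hB))
    have hb : ∀ n, tr (bd (M B)) x n < bd (M B) n := by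
      intro n
      unfold tr bd
      omega
    obtain ⟨B', hB', hxB'⟩ := hCc (fb (bd (M B))) (codeSet (fb (bd (M B))) (tr (bd (M B)) x))
      (codeSet_mem (fb_strictMono _) _)
    refine ⟨_, ⟨⟨⟨B, hB⟩, ⟨B', hB'⟩⟩, rfl⟩, hx _ ?_⟩
    obtain ⟨n1, hn1⟩ := localize (bd (M B)) (hT' _ _ hB') (hr' _ _ hB') hb
      (hxB'.trans (hsub' _ _ hB'))
    refine ⟨max k0 n1, fun n hn => ?_⟩
    have h6 := hn1 n ((le_max_right _ _).trans hn)
    have h7 := hk0 n ((le_max_left _ _).trans hn)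
    have h8 : tr (bd (M B)) x n = x n := by
      unfold tr bd
      omega
    rwa [h8] at h6
  refine (cofNum_le h3 h4).trans (mk_range_le.trans ?_)
  have h5 : #ι ≤ #(C id) * supcof := by
    rw [mk_sigma]
    refine (Cardinal.sum_le_sum _ (fun _ => supcof) fun B => ?_).trans ?_
    · rw [hC]
      exact cof_le_supcof (fb_strictMono _)
    · rw [Cardinal.sum_const']
  refine h5.trans ?_
  rw [hC]
  exact (mul_le_mul_left (cof_le_supcof strictMono_id) _).trans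
    (mul_eq_self aleph0_le_supcof).le

/-- The main theorem. -/
theorem main : supcof = cofNum nullIdeal ∧ minadd = addNum nullIdeal := by
  have : Nonempty {f : ℕ → ℕ // StrictMono f} := ⟨⟨id, strictMono_id⟩⟩
  refine ⟨le_antisymm ?_ le_supcof, le_antisymm minadd_le ?_⟩
  · exact ciSup_le fun f => cof_le_null f.2
  · exact le_ciInf fun f => add_null_le f.2

end Pool.Agent.H20R3.Yor
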