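import Pool.Agent.H20R3.Yor.Capture

/-!
# Fast growing `f`: the ideal `I_f` localizes bounded functions
-/

namespace Pool.Agent.H20R3.Yor

open Set MeasureTheory Cardinal Filter
open scoped ENNReal Cardinal

/-- the function `f` depending on the bound `b` -/
def fb (b : ℕ → ℕ) (t : ℕ) : ℕ := t + ∑ n ∈ Finset.range (t + 1), (n + b n)

theorem fb_strictMono (b : ℕ → ℕ) : StrictMono (fb b) := by
  apply strictMono_nat_of_lt_succ
  intro t
  unfold fb
  rw [Finset.sum_range_succ _ (t + 1)]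
  omega

theorem le_fb (b : ℕ → ℕ) (n : ℕ) : n + b n ≤ fb b (2 ^ n) := by
  unfold fb
  have h : n ∈ Finset.range (2 ^ n + 1) := by
    rw [Finset.mem_range]
    exact Nat.lt_succ_of_lt Nat.lt_two_pow_self
  exact (Finset.single_le_sum (f := fun n => n + b n) (fun _ _ => Nat.zero_le _) h).trans
    (Nat.le_add_left _ _)

/-- the points coding the function `x` -/
def pt (x : ℕ → ℕ) (n : ℕ) (v : Fin n → Bool) : Cantor :=
  fun i => if h : i < n then v ⟨i, h⟩ else decide (i = n + x n)

theorem pt_mem (x : ℕ → ℕ) (n : ℕ) (v : Fin n → Bool) : pt x n v ∈ Bx n v := by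
  intro i
  simp [pt]

/-- the member of `I_f` coding the function `x` -/
def codeSet (f : ℕ → ℕ) (x : ℕ → ℕ) : Set Cantor := LS (fam (pt x) fun n => f (2 ^ n ^ 2))

theorem codeSet_mem {f : ℕ → ℕ} (hf : StrictMono f) (x : ℕ → ℕ) : codeSet f x ∈ yorioka f := by
  apply LS_mem_yorioka hf.monotone
  · intro n
    exact (card_fam _ _ n).trans (Nat.pow_le_pow_right (by norm_num) (by omega))
  · intro k
    refine ⟨k, fun n hn s hs => ?_⟩
    obtain ⟨v, _, rfl⟩ := Finset.mem_image.1 hs
    rw [length_seg]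
    apply hf.monotone
    apply Nat.pow_le_pow_right (by norm_num)
    rw [pow_two]
    exact Nat.mul_le_mul_right _ hn

/-- decoding -/
noncomputable def dec (n : ℕ) (s : List Bool) : ℕ := sInf {j | s.getD (n + j) false = true}

/-- the slalom of `T` -/
noncomputable def slal (T : ℕ → Finset (List Bool)) (n : ℕ) : Finset ℕ :=
  ((Finset.range (n ^ 2 + 1)).biUnion T).image (dec n)

theorem card_slal {T : ℕ → Finset (List Bool)} (hT : ∀ n, (T n).card ≤ 2 ^ n) (n : ℕ) :
    (slal T n).card ≤ 2 ^ (n ^ 2 + 1) :=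
  Finset.card_image_le.trans (card_biUnion_lt hT _).le

/-- few `v` meet strings of low level which are longer than `n` -/
theorem card_killed {T : ℕ → Finset (List Bool)} (hT : ∀ n, (T n).card ≤ 2 ^ n) (n M : ℕ)
    (D : Finset (Fin n → Bool)) (hD : ∀ v ∈ D, ∃ n' < M, ∃ s ∈ T n', n < s.length ∧
      (Cyl s ∩ Bx n v).Nonempty) : D.card < 2 ^ M := by
  classical
  choose! l hl s hs hn hne using hD
  refine lt_of_le_of_lt ?_ (card_biUnion_lt hT M)
  apply Finset.card_le_card_of_injOn s
  · intro v hv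
    simp only [Finset.coe_biUnion, mem_iUnion]
    exact ⟨l v, by simpa using hl v hv, hs v hv⟩
  · intro v hv v' hv' h
    refine determine (hn v hv) (hne v hv) ?_
    rw [h]
    exact hne v' hv'

theorem num_bound {n n' : ℕ} (h : n ^ 2 + 1 ≤ n') : 2 * n' + 1 + 2 ^ n ^ 2 ≤ 2 ^ (2 * n') := by
  have h1 : 2 ^ n ^ 2 ≤ 2 ^ (n' - 1) := Nat.pow_le_pow_right (by norm_num) (by omega)
  have h2 : 1 ≤ n' := by omega
  have h3 : ∀ k : ℕ, 2 * (k + 1) + 1 + 2 ^ k ≤ 2 ^ (2 * (k + 1)) := by
    intro k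
    induction k with
    | zero => norm_num
    | succ k ih =>
      have e1 : 2 ^ (2 * (k + 1 + 1)) = 4 * 2 ^ (2 * (k + 1)) := by
        rw [show 2 * (k + 1 + 1) = 2 * (k + 1) + 2 by ring, pow_add]; ring
      rw [e1, pow_succ]
      omega
  have h4 := h3 (n' - 1)
  rw [Nat.sub_add_cancel h2] at h4
  omega

theorem localize (b : ℕ → ℕ) {T : ℕ → Finset (List Bool)} (hT : ∀ n, (T n).card ≤ 2 ^ n)
    (hr : Rate (fb b) T) {x : ℕ → ℕ} (hx : ∀ n, x n < b n) (h : codeSet (fb b) x ⊆ LS T) :
    ∃ n1, ∀ n ≥ n1, x n ∈ slal T n := by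
  classical
  have hf := fb_strictMono b
  obtain ⟨m, hm1, hm, hV⟩ := coin_V_lt hf hT hr
  have hLn : ∀ n, n + b n ≤ fb b (2 ^ n ^ 2) := by
    intro n
    refine (le_fb b n).trans (hf.monotone (Nat.pow_le_pow_right (by norm_num) ?_))
    rw [pow_two]
    exact Nat.le_mul_self n
  have hL : ∀ n, n ≤ fb b (2 ^ n ^ 2) := fun n => (Nat.le_add_right _ _).trans (hLn n)
  obtain ⟨d, n0, hcap⟩ := capture hV hm1 (pt_mem x) hL h
  refine ⟨max n0 (max m (2 * d + 2)), fun n hn => ?_⟩
  have hn0 : n0 ≤ n := (le_max_left _ _).trans hn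
  have hnm : m ≤ n := (le_max_left _ _).trans ((le_max_right _ _).trans hn)
  have hnd : 2 * d + 2 ≤ n := (le_max_right _ _).trans ((le_max_right _ _).trans hn)
  set M := (n + 1) / 2 with hM
  obtain ⟨v, hv, hvD⟩ : ∃ v ∈ Good T m (pt x) (fun n => fb b (2 ^ n ^ 2)) n,
      ¬ ∃ n' < M, ∃ s ∈ T n', n < s.length ∧ (Cyl s ∩ Bx n v).Nonempty := by
    by_contra hcon
    push Not at hcon
    let D : Finset (Fin n → Bool) := Finset.univ.filter fun v =>
      ∃ n' < M, ∃ s ∈ T n', n < s.length ∧ (Cyl s ∩ Bx n v).Nonempty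
    have h1 := hcap n hn0 D (fun v hv => by
      simp only [D, Finset.mem_filter, Finset.mem_univ, true_and]
      exact hcon v hv)
    have h2 := card_killed hT n M D (fun v hv => by
      simpa only [D, Finset.mem_filter, Finset.mem_univ, true_and] using hv)
    have h3 : 2 ^ n < 2 ^ M * 2 ^ d := h1.trans_lt (Nat.mul_lt_mul_of_pos_right h2 (by positivity))
    rw [← pow_add] at h3
    have h4 := (Nat.pow_lt_pow_iff_right (by norm_num)).1 h3
    omega
  obtain ⟨n', hn'm, hn'N, s, hs, y, hy, hy'⟩ := Good.captured hT hv (N := n ^ 2 + 1) (by omega)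
    (fun n' hn' s hs => by
      have h1 : n ≤ n ^ 2 := by rw [pow_two]; exact Nat.le_mul_self n
      have h2 := hm n' (by omega) s hs
      have h3 := num_bound hn'
      have h4 := hf.add_le_nat (2 ^ (2 * n') - 2 ^ n ^ 2) (2 ^ n ^ 2)
      rw [Nat.sub_add_cancel (by omega)] at h4
      omega)
  have hyB : y ∈ Bx n v := Cyl_seg_subset_Bx (pt_mem x) hL n v hy'
  have hlong := Good.long hv hn'm hs ⟨y, hy, hyB⟩
  have hMn' : M ≤ n' := by
    by_contra hc
    exact hvD ⟨n', not_le.1 hc, s, hs, hlong, y, hy, hyB⟩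
  have hlen : n + b n ≤ s.length := by
    refine (le_fb b n).trans ((hf.monotone ?_).trans (hm n' hn'm s hs))
    exact Nat.pow_le_pow_right (by norm_num) (by omega)
  have hbit : ∀ j < b n, s.getD (n + j) false = decide (j = x n) := by
    intro j hj
    have h1 : n + j < s.length := by omega
    rw [List.getD_eq_getElem _ _ h1, hy (n + j) h1,
      ← mem_Cyl_seg.1 hy' (n + j) ((Nat.add_lt_add_left hj n).trans_le (hLn n))]
    simp [pt]
  have hdec : dec n s = x n := by
    unfold dec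
    apply le_antisymm
    · apply Nat.sInf_le
      change s.getD (n + x n) false = true
      rw [hbit _ (hx n)]; simp
    · apply le_csInf
      · exact ⟨x n, by change s.getD (n + x n) false = true; rw [hbit _ (hx n)]; simp⟩
      · intro j hj
        by_contra hc
        have hj' : s.getD (n + j) false = true := hj
        rw [hbit j ((not_le.1 hc).trans (hx n))] at hj'
        simp at hj'
        omega
  rw [← hdec]
  apply Finset.mem_image_of_mem
  rw [Finset.mem_biUnion]
  exact ⟨n', Finset.mem_range.2 hn'N, hs⟩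

end Pool.Agent.H20R3.Yor
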