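import Pool.Agent.H20R3.Yor.Dominate

/-!
# Coding null sets: the null ideal is below localization
-/

namespace Pool.Agent.H20R3.Yor

open Set MeasureTheory Cardinal Filter
open scoped ENNReal Cardinal

/-- the minimal strings with cylinders inside `V` -/
def minStr (V : Set Cantor) : Set (List Bool) :=
  {s | Cyl s ⊆ V ∧ ∀ x ∈ Cyl s, ∀ L < s.length, ¬ Cyl (seg x L) ⊆ V}

theorem exists_minStr {U : Set Cantor} (hU : IsOpen U) {x : Cantor} (hx : x ∈ U) :
    ∃ s ∈ minStr U, x ∈ Cyl s := by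
  classical
  have hex := exists_Cyl hU hx
  refine ⟨seg x (Nat.find hex), ⟨Nat.find_spec hex, ?_⟩, self_mem _ _⟩
  intro y hy L hL
  rw [length_seg] at hL
  have h1 : seg y L = seg x L := by
    unfold seg
    congr 1
    funext i
    exact (mem_Cyl_seg.1 hy i (i.2.trans hL)).symm
  rw [h1]
  exact Nat.find_min hex hL

theorem minStr_disj {U : Set Cantor} {s t : List Bool} (hs : s ∈ minStr U) (ht : t ∈ minStr U)
    {x : Cantor} (hxs : x ∈ Cyl s) (hxt : x ∈ Cyl t) : s = t := by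
  have h1 := eq_seg_of_mem hxs
  have h2 := eq_seg_of_mem hxt
  rcases lt_trichotomy s.length t.length with h | h | h
  · exact absurd (h1 ▸ hs.1) (ht.2 x hxt _ h)
  · rw [h1, h2, h]
  · exact absurd (h2 ▸ ht.1) (hs.2 x hxs _ h)

open Classical in
theorem tsum_minStr_le (U : Set Cantor) :
    ∑' s : List Bool, (if s ∈ minStr U then (2⁻¹ : ℝ≥0∞) ^ s.length else 0) ≤ coin U := by
  have h1 : ∀ s : List Bool, (if s ∈ minStr U then (2⁻¹ : ℝ≥0∞) ^ s.length else 0) =
      coin (if s ∈ minStr U then Cyl s else ∅) := by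
    intro s
    split_ifs
    · rw [coin_Cyl]
    · simp
  simp_rw [h1]
  rw [← measure_iUnion]
  · apply measure_mono
    apply iUnion_subset
    intro s
    split_ifs with h
    · exact h.1
    · exact empty_subset _
  · intro s t hst
    change Disjoint _ _
    rw [Set.disjoint_left]
    intro x hx hx'
    beta_reduce at hx hx'
    split_ifs at hx hx' with h h'
    · exact hst (minStr_disj h h' hx hx')
    all_goals first | exact hx | exact hx'
  · intro s
    split_ifs
    · exact measurable_Cyl s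
    · exact MeasurableSet.empty

/-- a null set is contained in the `limsup` of a summable family -/
theorem exists_summable {Z : Set Cantor} (hZ : coin Z = 0) :
    ∃ S : ℕ → Finset (List Bool), ∑' n, wt (S n) ≠ ∞ ∧ Z ⊆ LS S := by
  classical
  have h1 : ∀ k : ℕ, ∃ U, Z ⊆ U ∧ IsOpen U ∧ coin U ≤ (2⁻¹ : ℝ≥0∞) ^ k := by
    intro k
    have h2 : coin Z < (2⁻¹ : ℝ≥0∞) ^ k := by
      rw [hZ]; exact ENNReal.pow_pos (by simp) k
    obtain ⟨U, h3, h4, h5⟩ := Z.exists_isOpen_lt_of_lt _ h2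
    exact ⟨U, h3, h4, h5.le⟩
  choose U hZU hU hUm using h1
  let e : ℕ ≃ ℕ × List Bool := (nonempty_equiv_of_countable (α := ℕ) (β := ℕ × List Bool)).some
  let F : ℕ × List Bool → ℝ≥0∞ := fun p =>
    if p.2 ∈ minStr (U p.1) then (2⁻¹ : ℝ≥0∞) ^ p.2.length else 0
  refine ⟨fun i => if (e i).2 ∈ minStr (U (e i).1) then {(e i).2} else ∅, ?_, ?_⟩
  · have h3 : ∀ i, wt (if (e i).2 ∈ minStr (U (e i).1) then {(e i).2} else ∅) = F (e i) := by
      intro i
      simp only [F]
      split_ifs <;> simp [wt]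
    simp_rw [h3]
    rw [e.tsum_eq F, ENNReal.tsum_prod']
    refine ne_top_of_le_ne_top ?_ (ENNReal.tsum_le_tsum fun k =>
      (tsum_minStr_le (U k)).trans (hUm k))
    rw [ENNReal.tsum_geometric, ENNReal.one_sub_inv_two, inv_inv]
    simp
  · intro x hx
    have h4 : ∀ k, ∃ s ∈ minStr (U k), x ∈ Cyl s := fun k => exists_minStr (hU k) (hZU k hx)
    choose s hs hxs using h4
    have h5 : Function.Injective fun k => e.symm (k, s k) := by
      intro a b hab
      have := e.symm.injective hab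
      exact (Prod.ext_iff.1 this).1
    refine (Set.infinite_range_of_injective h5).mono ?_
    rintro _ ⟨k, rfl⟩
    refine ⟨s k, ?_, hxs k⟩
    simp only [Equiv.apply_symm_apply]
    rw [if_pos (hs k)]
    simp

theorem wt_biUnion_le {α : Type*} [DecidableEq α] (I : Finset α) (S : α → Finset (List Bool)) :
    wt (I.biUnion S) ≤ ∑ i ∈ I, wt (S i) := by
  classical
  unfold wt
  induction I using Finset.induction_on with
  | empty => simp
  | insert a I ha ih =>
    rw [Finset.biUnion_insert, Finset.sum_insert ha]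
    refine le_trans ?_ (add_le_add_right ih _)
    have := Finset.sum_union_inter (s₁ := S a) (s₂ := I.biUnion S)
      (f := fun s => (2⁻¹ : ℝ≥0∞) ^ s.length)
    rw [← this]
    exact le_self_add

theorem wt_mono {F G : Finset (List Bool)} (h : F ⊆ G) : wt F ≤ wt G :=
  Finset.sum_le_sum_of_subset h

/-- regrouping a summable family -/
theorem exists_small {Z : Set Cantor} (hZ : coin Z = 0) {ε : ℕ → ℝ≥0∞} (hε : ∀ n, ε n ≠ 0) :
    ∃ T : ℕ → Finset (List Bool), (∀ n, wt (T n) ≤ ε n) ∧ Z ⊆ LS T := by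
  classical
  obtain ⟨S, hS, hZS⟩ := exists_summable hZ
  have h1 := ENNReal.tendsto_sum_nat_add (fun i => wt (S i)) hS
  have h2 : ∀ j a, ∃ N, a < N ∧ ∑' k, wt (S (k + N)) ≤ ε j := by
    intro j a
    have h3 := h1.eventually (gt_mem_nhds (pos_iff_ne_zero.2 (hε j)))
    obtain ⟨N, hN, hN'⟩ := (h3.and (eventually_gt_atTop a)).exists
    exact ⟨N, hN', hN.le⟩
  choose nx hnx1 hnx2 using h2
  let N : ℕ → ℕ := fun j => Nat.rec (nx 0 0) (fun j a => nx (j + 1) a) j
  have hNs : ∀ j, N (j + 1) = nx (j + 1) (N j) := fun j => rfl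
  have hNlt : ∀ j, N j < N (j + 1) := fun j => by rw [hNs]; exact hnx1 _ _
  have hNmono : StrictMono N := strictMono_nat_of_lt_succ hNlt
  have hNsum : ∀ j, ∑' k, wt (S (k + N j)) ≤ ε j := by
    intro j
    cases j with
    | zero => exact hnx2 _ _
    | succ j => exact hnx2 _ _
  refine ⟨fun j => (Finset.Ico (N j) (N (j + 1))).biUnion S, fun j => ?_, fun x hx => ?_⟩
  · refine (wt_biUnion_le _ _).trans (le_trans ?_ (hNsum j))
    rw [Finset.sum_Ico_eq_sum_range]
    simp_rw [add_comm (N j)]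
    exact ENNReal.sum_le_tsum _
  · change Set.Infinite _
    rw [Set.infinite_iff_exists_gt]
    intro a
    obtain ⟨i, ⟨s, hs, hsx⟩, hi⟩ := Set.Infinite.exists_gt (hZS hx) (N (a + 1))
    have hex : ∃ j, i < N j := ⟨i + 1, (Nat.lt_succ_self i).trans_le hNmono.le_apply⟩
    obtain ⟨j0, h3, hmin⟩ : ∃ j0, i < N j0 ∧ ∀ j < j0, ¬ i < N j := by
      classical
      exact ⟨Nat.find hex, Nat.find_spec hex, fun j hj => Nat.find_min hex hj⟩
    have h4 : a + 1 < j0 := by
      by_contra hc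
      have := hNmono.monotone (not_lt.1 hc)
      omega
    obtain ⟨j, hj⟩ : ∃ j, j0 = j + 1 := ⟨j0 - 1, by omega⟩
    have h5 : ¬ i < N j := hmin j (by omega)
    refine ⟨j, ⟨s, ?_, hsx⟩, by omega⟩
    rw [Finset.mem_biUnion]
    refine ⟨i, Finset.mem_Ico.2 ⟨not_lt.1 h5, ?_⟩, hs⟩
    rw [← hj]; exact h3

open Classical in
/-- the members of the finite family coded by `c` if it is small -/
noncomputable def unc (ε : ℝ≥0∞) (c : ℕ) : Finset (List Bool) :=
  match (Encodable.decode c : Option (Finset (List Bool))) with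
  | some F => if wt F ≤ ε then F else ∅
  | none => ∅

theorem wt_unc_le (ε : ℝ≥0∞) (c : ℕ) : wt (unc ε c) ≤ ε := by
  classical
  unfold unc
  split
  · split_ifs with h
    · exact h
    · simp [wt]
  · simp [wt]

theorem unc_encode {ε : ℝ≥0∞} {F : Finset (List Bool)} (h : wt F ≤ ε) :
    unc ε (Encodable.encode F) = F := by
  classical
  unfold unc
  rw [Encodable.encodek]
  simp [h]

/-- the null set of a slalom -/
noncomputable def nullOf (φ : ℕ → Finset ℕ) : Set Cantor :=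
  LS fun n => (φ n).biUnion (unc ((2⁻¹ : ℝ≥0∞) ^ (n ^ 2 + 1 + n)))

theorem nullOf_null {φ : ℕ → Finset ℕ} (h : ∀ n, (φ n).card ≤ 2 ^ (n ^ 2 + 1)) :
    coin (nullOf φ) = 0 := by
  apply coin_LS_eq_zero
  have h1 : ∀ n, wt ((φ n).biUnion (unc ((2⁻¹ : ℝ≥0∞) ^ (n ^ 2 + 1 + n)))) ≤
      (2⁻¹ : ℝ≥0∞) ^ n := by
    intro n
    refine (wt_biUnion_le _ _).trans ?_
    refine (Finset.sum_le_card_nsmul _ _ _ fun c _ => wt_unc_le _ c).trans ?_
    rw [nsmul_eq_mul]
    have h4 : (((φ n).card : ℕ) : ℝ≥0∞) ≤ 2 ^ (n ^ 2 + 1) := by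
      exact_mod_cast h n
    refine (mul_le_mul_left h4 _).trans ?_
    rw [pow_add _ (n ^ 2 + 1) n, ← mul_assoc, ← mul_pow,
      ENNReal.mul_inv_cancel (by simp) (by simp), one_pow, one_mul]
  refine ne_top_of_le_ne_top ?_ (ENNReal.tsum_le_tsum h1)
  rw [ENNReal.tsum_geometric, ENNReal.one_sub_inv_two, inv_inv]
  simp

/-- every null set has a code -/
theorem exists_code {Z : Set Cantor} (hZ : coin Z = 0) :
    ∃ x : ℕ → ℕ, ∀ φ : ℕ → Finset ℕ, (∃ n1, ∀ n ≥ n1, x n ∈ φ n) → Z ⊆ nullOf φ := by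
  classical
  obtain ⟨T, h1, h2⟩ := exists_small hZ (ε := fun n => (2⁻¹ : ℝ≥0∞) ^ (n ^ 2 + 1 + n))
    (fun n => (ENNReal.pow_pos (by simp) _).ne')
  refine ⟨fun n => Encodable.encode (T n), fun φ ⟨n1, hn1⟩ x hx => ?_⟩
  change Set.Infinite _
  rw [Set.infinite_iff_exists_gt]
  intro a
  obtain ⟨n, ⟨s, hs, hsx⟩, hn⟩ := Set.Infinite.exists_gt (h2 hx) (max a n1)
  refine ⟨n, ⟨s, ?_, hsx⟩, (le_max_left _ _).trans_lt hn⟩
  rw [Finset.mem_biUnion]
  refine ⟨_, hn1 n ((le_max_right _ _).trans hn.le), ?_⟩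
  rw [unc_encode (h1 n)]
  exact hs

end Pool.Agent.H20R3.Yor
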